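import Pool.Agent.Q19.SU.Tel
import Pool.Agent.Y733.LS.Fin
import Pool.Agent.Y673.Loc.NF

/-!
# The conditions on the invariant, uniform in the number field (helper23)
-/

set_option autoImplicit false

namespace Pool.Agent.W2helper23.TB

open NumberField IsDedekindDomain Pool.Agent.H691R3 Pool.Agent.Y673.Loc Pool.Agent.Q19.SU
open Pool.Agent.W223.AK (Pr)
open Pool.Agent.Y733.LS (Sp sp Two)
open Pool.Agent.W223.AK (ht)

theorem C5_nonneg : 0 ≤ C5 := by
  unfold C5
  have a1 : 0 ≤ Real.log 6912 := Real.log_nonneg (by norm_num)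
  have a2 : 0 ≤ Real.log 250 := Real.log_nonneg (by norm_num)
  have a3 : 0 ≤ Real.log ((4 * 6912 * 46656 : ℕ) : ℝ) := Real.log_natCast_nonneg _
  positivity

/-- the conditions on the invariant -/
structure Gd {K : Type} [Field K] [NumberField K] (η : ℝ) (j : K) : Prop where
  h0 : j ≠ 0
  h1 : j ≠ 1728
  two : ¬ Two j
  hη : η < 1 / 2
  sp : (1 - η) * ht j ≤ sp j
  ht : Module.finrank ℚ K * C5 < (1 / 2 - η) * ht j
  pol : ∀ p : ℕ, p.Prime → p ^ 2 ≤ 8 * Module.finrank ℚ K + 1 →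
    ∃ v : Pr K, Sp j v ∧ (adv K v).v (p : K) = 0

end Pool.Agent.W2helper23.TB
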