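import Pool.Agent.W2helper12.GP.FEW
import Pool.Agent.W2helper23.TB.Gd

/-!
# Counting the invariants which do not satisfy the conditions (helper23)
-/

set_option autoImplicit false

namespace Pool.Agent.W2helper23.TB

open NumberField IsDedekindDomain Finset Pool.Agent.H691R3 Pool.Agent.W223.AK Pool.Agent.Y733.UD
open Pool.Agent.Y733.LS Pool.Agent.Y733.FZ Pool.Agent.Y673.Loc Pool.Agent.Q19.SU
open Pool.Agent.W2helper12.GP (fv_nat adv_nat_nonneg p_le_Nv)

/-- the places above `6 p` -/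
def S6 (K : Type) [Field K] [NumberField K] (p : ℕ) : Set (Pr K) :=
  {v | fv v ((6 : ℕ) : K) ≠ 1 ∨ (adv K v).v (p : K) ≠ 0}

theorem small_S6 (K : Type) [Field K] [NumberField K] {p : ℕ} (hp : p.Prime) :
    Small 2 (S6 K p) (Module.finrank ℚ K * (Real.log 6 / Real.log 2 + 1)) := by
  classical
  intro T hT
  have l2 : 0 < Real.log 2 := Real.log_pos (by norm_num)
  have hp1 : (1 : ℝ) < p := by exact_mod_cast hp.one_lt
  have lp : 0 < Real.log p := Real.log_pos hp1
  have hle : ∑ v ∈ T, Real.exp (-(Real.log (Nv v) / (2 * ((2 : ℕ) : ℝ)))) ≤ (T.card : ℝ) := by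
    have h1 : (T.card : ℝ) = ∑ _v ∈ T, (1 : ℝ) := by simp
    rw [h1]
    refine Finset.sum_le_sum fun v _ => ?_
    rw [Real.exp_le_one_iff]
    have := log_Nv_pos v
    have : 0 ≤ Real.log (Nv v) / (2 * ((2 : ℕ) : ℝ)) := by positivity
    linarith
  refine hle.trans ?_
  set T1 := T.filter fun v => fv v ((6 : ℕ) : K) ≠ 1 with hT1
  set T2 := T.filter fun v => (adv K v).v (p : K) ≠ 0 with hT2
  have hcov : T ⊆ T1 ∪ T2 := by
    intro v hv
    rcases hT v hv with h | h
    · exact Finset.mem_union_left _ (Finset.mem_filter.2 ⟨hv, h⟩)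
    · exact Finset.mem_union_right _ (Finset.mem_filter.2 ⟨hv, h⟩)
  have hc : (T.card : ℝ) ≤ T1.card + T2.card := by
    have h1 := (Finset.card_le_card hcov).trans (Finset.card_union_le _ _)
    exact_mod_cast h1
  have c1 : (T1.card : ℝ) * Real.log 2 ≤ Module.finrank ℚ K * Real.log 6 := by
    have h1 := sum_dvd (K := K) (n := 6) (by norm_num) T1 (fun v hv => (Finset.mem_filter.1 hv).2)
    have h2 : (T1.card : ℝ) * Real.log 2 ≤ ∑ v ∈ T1, Real.log (Nv v) := by
      rw [← nsmul_eq_mul, ← Finset.sum_const]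
      exact Finset.sum_le_sum fun v _ => log_two_le_log_Nv v
    exact h2.trans (by exact_mod_cast h1)
  have c2 : (T2.card : ℝ) * Real.log p ≤ Module.finrank ℚ K * Real.log p := by
    have hne : ∀ v ∈ T2, 0 < (adv K v).v (p : K) := by
      intro v hv
      have h1 := (Finset.mem_filter.1 hv).2
      have h2 := adv_nat_nonneg v hp.ne_zero
      omega
    have h1 := sum_dvd (K := K) (n := p) hp.ne_zero T2 (by
      intro v hv h
      have h3 := hne v hv
      rw [fv_nat v hp.ne_zero] at h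
      have h4 := Nv_one_lt v
      have h5 : (0 : ℤ) < (((adv K v).v (p : K)).toNat : ℕ) := by
        rw [Int.toNat_of_nonneg h3.le]
        exact h3
      rw [zpow_neg, inv_eq_one] at h
      have := one_lt_zpow₀ h4 h5
      linarith)
    have h2 : (T2.card : ℝ) * Real.log p ≤ ∑ v ∈ T2, Real.log (Nv v) := by
      rw [← nsmul_eq_mul, ← Finset.sum_const]
      exact Finset.sum_le_sum fun v hv =>
        Real.log_le_log (by linarith) (p_le_Nv v hp (hne v hv))
    exact h2.trans h1
  have c2' : (T2.card : ℝ) ≤ Module.finrank ℚ K := le_of_mul_le_mul_right c2 lp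
  have c1' : (T1.card : ℝ) ≤ Module.finrank ℚ K * (Real.log 6 / Real.log 2) := by
    rw [← mul_div_assoc, le_div_iff₀ l2]
    exact c1
  linarith

/-- the invariants all of whose simple poles are above `p` -/
theorem pol_count {ε : ℝ} (hε : 0 < ε) (hε1 : ε ≤ 1) : ∃ A : ℝ, 0 ≤ A ∧
    ∀ (K : Type) [Field K] [NumberField K] (p : ℕ) (X : ℝ) (E : Finset K), p.Prime →
      (∀ j ∈ E, Pt j ∧ ht j ≤ X ∧ ∀ v : Pr K, Sp j v → (adv K v).v (p : K) ≠ 0) →
        (E.card : ℝ) ≤ Real.exp (Module.finrank ℚ K * A + (3 / 2 + ε) * X) := by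
  classical
  obtain ⟨A, hA, h⟩ := pole_count (N := 2) (by norm_num) hε hε1
  have l2 : 0 < Real.log 2 := Real.log_pos (by norm_num)
  have l6 : 0 ≤ Real.log 6 := Real.log_nonneg (by norm_num)
  refine ⟨A + A * (Real.log 6 / Real.log 2 + 1), by positivity, ?_⟩
  intro K _ _ p X E hp hE
  refine (h K (S6 K p) _ X (small_S6 K hp) E ?_).trans (le_of_eq ?_)
  · intro j hj
    obtain ⟨h1, h2, h3⟩ := hE j hj
    refine ⟨h1, h2, ?_⟩
    intro v hv hlt
    have hv' : fv v ((6 : ℕ) : K) = 1 ∧ (adv K v).v (p : K) = 0 := by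
      constructor
      · by_contra hcon
        exact hv (Or.inl hcon)
      · by_contra hcon
        exact hv (Or.inr hcon)
    obtain ⟨h6, hp0⟩ := hv'
    obtain ⟨m, hm⟩ := fv_zpow v h1.1
    have hN := Nv_one_lt v
    have hm0 : 0 < m := by
      by_contra hcon
      push Not at hcon
      have : fv v j ≤ 1 := by
        rw [hm]
        exact zpow_le_one_of_nonpos₀ hN.le hcon
      linarith
    refine ⟨m.toNat, ?_, ?_⟩
    · by_contra hcon
      push Not at hcon
      have hm1 : m = 1 := by omega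
      subst hm1
      rw [zpow_one] at hm
      have e6 : fv v 2 * fv v 3 = 1 := by
        rw [← map_mul, ← h6]
        congr 1
        push_cast
        norm_num
      have l2 : fv v (2 : K) ≤ 1 := (fv_Na v).ofNat 2
      have l3 : fv v (3 : K) ≤ 1 := (fv_Na v).ofNat 3
      have p2 : 0 ≤ fv v (2 : K) := (fv v).nonneg _
      have p3 : 0 ≤ fv v (3 : K) := (fv v).nonneg _
      have h2 : fv v (2 : K) = 1 := by
        apply le_antisymm l2
        nlinarith
      have h3' : fv v (3 : K) = 1 := by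
        apply le_antisymm l3
        nlinarith
      exact h3 v ⟨h2, h3', hm⟩ hp0
    · rw [hm, ← zpow_natCast, Int.toNat_of_nonneg hm0.le]
  · congr 1
    push_cast
    ring

/-- **the exceptional invariants** -/
theorem gd_count {η ε : ℝ} (hη0 : 0 < η) (hη : η < 1 / 2) (hε : 0 < ε) (hε1 : ε ≤ 1) :
    ∃ A : ℝ, 0 ≤ A ∧ ∀ (K : Type) [Field K] [NumberField K] (X : ℝ) (E : Finset K), 0 ≤ X →
      (∀ j ∈ E, j ≠ 0 ∧ j ≠ 1728 ∧ ht j ≤ X ∧ ¬ Gd η j) →
        (E.card : ℝ) ≤ Real.exp (Module.finrank ℚ K * A + (2 - η / 2 + ε) * X) := by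
  classical
  obtain ⟨A1, hA1, hall⟩ := all_card (ε := 1) one_pos
  obtain ⟨A2, hA2, hspc⟩ := sp_count hε
  obtain ⟨A3, hA3, htwo⟩ := two_count hε
  obtain ⟨A4, hA4, hpol⟩ := pol_count hε hε1
  set L0 : ℝ := C5 / (1 / 2 - η) with hL0
  have hη' : 0 < 1 / 2 - η := by linarith
  have hL00 : 0 ≤ L0 := div_nonneg C5_nonneg hη'.le
  refine ⟨14 + (A1 + 3 * L0 + A2 + A3 + A4), by positivity, ?_⟩
  intro K _ _ X E hX hE
  set n := Module.finrank ℚ K with hn
  have hnpos : 0 < n := Module.finrank_pos (R := ℚ) (M := K)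
  have hn1 : (1 : ℝ) ≤ n := by exact_mod_cast hnpos
  have hn0 : (0 : ℝ) ≤ n := by linarith
  set E2 := E.filter fun j => j ≠ -1 ∧ ht j ≤ n * L0 with hE2
  set E3 := E.filter fun j => j ≠ -1 ∧ sp j ≤ (1 - η) * ht j with hE3
  set E4 := E.filter fun j => Two j with hE4
  set E5 : ℕ → Finset K := fun p => E.filter fun j => j ≠ -1 ∧ p.Prime ∧
    ∀ v : Pr K, Sp j v → (adv K v).v (p : K) ≠ 0 with hE5
  set E6 := (Finset.range (8 * n + 2)).biUnion E5 with hE6
  have hsub : E ⊆ (E2 ∪ E3 ∪ E4 ∪ E6) ∪ {-1} := by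
    intro j hj
    rw [Finset.mem_union, Finset.mem_singleton, Finset.mem_union, Finset.mem_union,
      Finset.mem_union]
    by_cases h1 : j = -1
    · exact Or.inr h1
    · left
      obtain ⟨h2, h3, h4, h5⟩ := hE j hj
      by_contra hcon
      push Not at hcon
      obtain ⟨⟨⟨c1, c2⟩, c3⟩, c4⟩ := hcon
      rw [hE2, Finset.mem_filter] at c1
      rw [hE3, Finset.mem_filter] at c2
      rw [hE4, Finset.mem_filter] at c3
      push Not at c1 c2 c3
      apply h5
      refine ⟨h2, h3, c3 hj, hη, (c2 hj h1).le, ?_, ?_⟩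
      · have h6 := c1 hj h1
        rw [hL0, ← mul_div_assoc, div_lt_iff₀ hη'] at h6
        linarith
      · intro p hp hpn
        by_contra hno
        push Not at hno
        apply c4
        rw [hE6, Finset.mem_biUnion]
        refine ⟨p, Finset.mem_range.2 ?_, ?_⟩
        · have := hp.two_le
          nlinarith
        · rw [hE5]
          simp only
          rw [Finset.mem_filter]
          exact ⟨hj, h1, hp, hno⟩
  have hPt : ∀ j ∈ E, j ≠ -1 → Pt j := by
    intro j hj h1
    refine ⟨(hE j hj).1, fun h2 => h1 ?_⟩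
    linear_combination h2
  have b2 : (E2.card : ℝ) ≤ Real.exp (n * (A1 + 3 * L0)) := by
    refine (hall K (n * L0) E2 ?_).trans (le_of_eq (by congr 1; ring))
    intro j hj
    rw [hE2, Finset.mem_filter] at hj
    exact ⟨hPt j hj.1 hj.2.1, hj.2.2⟩
  have b3 : (E3.card : ℝ) ≤ Real.exp (n * A2 + (2 - η / 2 + ε) * X) := by
    refine hspc K η X E3 (by linarith) ?_
    intro j hj
    rw [hE3, Finset.mem_filter] at hj
    exact ⟨hPt j hj.1 hj.2.1, (hE j hj.1).2.2.1, hj.2.2⟩
  have b4 : (E4.card : ℝ) ≤ Real.exp (n * A3 + (2 + ε) / 3 * X) := by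
    refine htwo K X E4 ?_
    intro j hj
    rw [hE4, Finset.mem_filter] at hj
    obtain ⟨α, h1, h2, h3, h4⟩ := hj.2
    exact ⟨(hE j hj.1).2.2.1, α, ⟨h1, h2⟩, h3, h4⟩
  set M0 : ℝ := n * (A1 + 3 * L0 + A2 + A3 + A4) + (2 - η / 2 + ε) * X with hM0
  have m2 : Real.exp (n * (A1 + 3 * L0)) ≤ Real.exp M0 := by
    apply Real.exp_le_exp.2
    have h1 : 0 ≤ (2 - η / 2 + ε) * X := mul_nonneg (by linarith) hX
    have h2 : 0 ≤ n * (A2 + A3 + A4) := by positivity
    rw [hM0]
    nlinarith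
  have m3 : Real.exp (n * A2 + (2 - η / 2 + ε) * X) ≤ Real.exp M0 := by
    apply Real.exp_le_exp.2
    have h2 : 0 ≤ n * (A1 + 3 * L0 + A3 + A4) := by positivity
    rw [hM0]
    nlinarith
  have m4 : Real.exp (n * A3 + (2 + ε) / 3 * X) ≤ Real.exp M0 := by
    apply Real.exp_le_exp.2
    have h2 : 0 ≤ n * (A1 + 3 * L0 + A2 + A4) := by positivity
    have h3 : (2 + ε) / 3 * X ≤ (2 - η / 2 + ε) * X :=
      mul_le_mul_of_nonneg_right (by linarith) hX
    rw [hM0]
    nlinarith
  have b5 : ∀ p, ((E5 p).card : ℝ) ≤ Real.exp M0 := by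
    intro p
    by_cases hp : p.Prime
    · refine (hpol K p X (E5 p) hp ?_).trans ?_
      · intro j hj
        rw [hE5] at hj
        simp only at hj
        rw [Finset.mem_filter] at hj
        exact ⟨hPt j hj.1 hj.2.1, (hE j hj.1).2.2.1, hj.2.2.2⟩
      · apply Real.exp_le_exp.2
        have h2 : 0 ≤ n * (A1 + 3 * L0 + A2 + A3) := by positivity
        have h3 : (3 / 2 + ε) * X ≤ (2 - η / 2 + ε) * X :=
          mul_le_mul_of_nonneg_right (by linarith) hX
        rw [hM0]
        nlinarith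
    · have h1 : E5 p = ∅ := by
        rw [hE5]
        simp only
        rw [Finset.filter_eq_empty_iff]
        rintro j _ ⟨_, h2, _⟩
        exact hp h2
      rw [h1, Finset.card_empty, Nat.cast_zero]
      exact (Real.exp_pos _).le
  have b6 : (E6.card : ℝ) ≤ (8 * n + 2) * Real.exp M0 := by
    have h1 : E6.card ≤ ∑ p ∈ Finset.range (8 * n + 2), (E5 p).card := Finset.card_biUnion_le
    have h2 : (E6.card : ℝ) ≤ ∑ p ∈ Finset.range (8 * n + 2), ((E5 p).card : ℝ) := by
      exact_mod_cast h1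
    refine h2.trans ((Finset.sum_le_sum fun p _ => b5 p).trans (le_of_eq ?_))
    rw [Finset.sum_const, Finset.card_range, nsmul_eq_mul]
    push_cast
    ring
  have m1 : 1 ≤ Real.exp M0 := by
    apply Real.one_le_exp
    have h1 : 0 ≤ (2 - η / 2 + ε) * X := mul_nonneg (by linarith) hX
    rw [hM0]
    positivity
  have hcard : (E.card : ℝ) ≤ E2.card + E3.card + E4.card + E6.card + 1 := by
    have h1 := Finset.card_le_card hsub
    have h2 := Finset.card_union_le (E2 ∪ E3 ∪ E4 ∪ E6) ({-1} : Finset K)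
    have h3 := Finset.card_union_le (E2 ∪ E3 ∪ E4) E6
    have h4 := Finset.card_union_le (E2 ∪ E3) E4
    have h5 := Finset.card_union_le E2 E3
    rw [Finset.card_singleton] at h2
    exact_mod_cast (by omega : E.card ≤ E2.card + E3.card + E4.card + E6.card + 1)
  have hfin : (E.card : ℝ) ≤ (14 * n) * Real.exp M0 := by nlinarith
  refine hfin.trans ?_
  have h4 : (14 * n : ℝ) ≤ Real.exp (n * 14) := by
    have := Real.add_one_le_exp ((n : ℝ) * 14)
    linarith
  calc (14 * n : ℝ) * Real.exp M0 ≤ Real.exp (n * 14) * Real.exp M0 :=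
        mul_le_mul_of_nonneg_right h4 (Real.exp_pos _).le
    _ = _ := by
        rw [← Real.exp_add (n * 14 : ℝ) M0, hM0]
        congr 1
        ring

end Pool.Agent.W2helper23.TB
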