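import Pool.Agent.W2helper23.TB.L2
import Pool.Agent.W2helper23.TB.Gd

/-!
# Large images with conditions on the invariant which are uniform in the number field (helper23)
-/

set_option autoImplicit false

namespace Pool.Agent.W2helper23.TB

open WeierstrassCurve NumberField IsDedekindDomain Finset Pool.Agent.H691R3
open Pool.Agent.H901R3.MS Pool.Agent.W275.FM
open Pool.Agent.Y673.Loc Pool.Agent.Y673.SL Pool.Agent.Q19.SU
open Pool.Agent.W223.AK (Pr)
open Pool.Agent.Y733.LS (Sp sp jj dl Fs_sp Fs_log fv_Na fin_nat Two jt_eq)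
open Pool.Agent.W223.AK (ht)

variable {K : Type} [Field K] [NumberField K]

theorem Gd.ne_A {η : ℝ} {j : K} (h : Gd η j) {A B : K} (hj : jv A B = j) : A ≠ 0 := by
  rintro rfl
  apply h.h0
  rw [← hj]
  unfold jv
  simp

theorem Gd.ne_B {η : ℝ} {j : K} (h : Gd η j) {A B : K} (hj : jv A B = j) : B ≠ 0 := by
  have hA0 := h.ne_A hj
  rintro rfl
  apply h.h1
  rw [← hj]
  unfold jv
  have hA3 : A ^ 3 ≠ 0 := pow_ne_zero 3 hA0
  rw [zero_pow two_ne_zero, mul_zero, add_zero, div_eq_iff (mul_ne_zero (by norm_num : (4 : K) ≠ 0) hA3)]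
  ring

theorem Gd.ht_pos {η : ℝ} {j : K} (h : Gd η j) : 0 < Pool.Agent.W223.AK.ht j := by
  have h1 := h.ht
  have h3 : (0 : ℝ) ≤ Module.finrank ℚ K * C5 := mul_nonneg (Nat.cast_nonneg _) C5_nonneg
  have h4 : 0 < 1 / 2 - η := by linarith [h.hη]
  by_contra hcon
  push Not at hcon
  nlinarith

theorem Gd.sp_pos {η : ℝ} {j : K} (h : Gd η j) : 0 < Pool.Agent.Y733.LS.sp j := by
  have h2 := h.sp
  have h5 := h.ht_pos
  have h4 : 0 < 1 / 2 - η := by linarith [h.hη]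
  nlinarith

/-- a root gives the parameter -/
theorem two_of_root {A B : K} (hA : A ≠ 0) (hB : B ≠ 0) (hD : 4 * A ^ 3 + 27 * B ^ 2 ≠ 0) {x : K}
    (hx : x ^ 3 + A * x + B = 0) : Two (jj A B) := by
  obtain ⟨f1, f2, f3⟩ := jt_eq hB hD hx
  refine ⟨A / x ^ 2, div_ne_zero hA (pow_ne_zero _ f1), ?_, f2, f3⟩
  intro h1
  apply hB
  have h3 : A = -x ^ 2 := by
    have : A / x ^ 2 = -1 := by linear_combination h1
    rw [div_eq_iff (pow_ne_zero _ f1)] at this
    linear_combination this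
  rw [h3] at hx
  linear_combination hx

open scoped Classical in
/-- no line is stable -/
theorem Gd.line {η : ℝ} {j : K} (h : Gd η j) {A B : K} (hD : 4 * A ^ 3 + 27 * B ^ 2 ≠ 0)
    (hj : jv A B = j) {p : ℕ} (hp : p.Prime)
    {v₀ : Pt (ca (AlgebraicClosure K) A) (ca (AlgebraicClosure K) B)} (hv : p • v₀ = 0)
    (hv0 : v₀ ≠ 0)
    (hst : ∀ τ : AlgebraicClosure K ≃ₐ[K] AlgebraicClosure K,
      mp A B (τ : AlgebraicClosure K →ₐ[K] AlgebraicClosure K) v₀ ∈ AddSubgroup.zmultiples v₀) :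
    False := by
  have hA0 := h.ne_A hj
  have hB0 := h.ne_B hj
  have e : jj A B = j := hj
  rcases hp.eq_two_or_odd' with rfl | hodd
  · obtain ⟨x, hx⟩ := root_of hD hv hv0 hst
    apply h.two
    rw [← e]
    exact two_of_root hA0 hB0 hD hx
  · exact no_line_odd hD hp hodd hA0 hB0 (η := η) h.hη (by rw [e]; exact h.sp)
      (by rw [e]; exact h.ht) hv hv0 hst

open scoped Classical in
theorem Gd.sl_all {η : ℝ} {j : K} (h : Gd η j) {A B : K} (hD : 4 * A ^ 3 + 27 * B ^ 2 ≠ 0)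
    (hj : jv A B = j) {p : ℕ} (hp : p.Prime) : HasSL A B p := by
  have hsp0 := h.sp_pos
  have hO : OrdP A B p := by
    rcases hp.eq_two_or_odd' with rfl | hodd
    · obtain ⟨v, hv⟩ := exists_sp hsp0
      obtain ⟨k1, k2, k3⟩ := adv_sp h.h0 hv
      exact ord_two hD v k1 (by rw [hj]; exact k3)
    · by_cases h3 : p = 3
      · subst h3
        obtain ⟨v, hv⟩ := exists_sp hsp0
        obtain ⟨k1, k2, k3⟩ := adv_sp h.h0 hv
        exact ord_odd hD hp hodd v k1 (by exact_mod_cast k2) (by rw [hj]; exact k3)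
      · have h5 : 5 ≤ p := by
          have h2 := hp.two_le
          obtain ⟨t, ht⟩ := hodd
          omega
        by_cases hd : 8 * Module.finrank ℚ K + 1 < p ^ 2
        · exact ord_of h.h0 hsp0 A B hD hj hp h5 hd
        · obtain ⟨v, hv, hpv⟩ := h.pol p hp (not_lt.1 hd)
          obtain ⟨k1, k2, k3⟩ := adv_sp h.h0 hv
          exact ord_odd hD hp hodd v k1 hpv (by rw [hj]; exact k3)
  by_contra hno
  obtain ⟨v, hv, hv0, hst⟩ := has_or hD hp hno hO
  exact h.line hD hj hp hv hv0 hst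

open scoped Classical in
theorem Gd.irr {η : ℝ} {j : K} (h : Gd η j) {A B : K} (hD : 4 * A ^ 3 + 27 * B ^ 2 ≠ 0)
    (hj : jv A B = j) {p : ℕ} (hp : p.Prime) {P : EP A B} (hP : (p : ℤ) • P = 0) (hP0 : P ≠ 0) :
    ∃ g : AlgebraicClosure K ≃ₐ[K] AlgebraicClosure K, act A B g P ∉ AddSubgroup.zmultiples P := by
  by_contra hcon
  push Not at hcon
  obtain ⟨v, hv⟩ : ∃ v, v = eqv A B (AlgebraicClosure K) P := ⟨_, rfl⟩
  have hvp : p • v = 0 := by
    rw [hv, ← map_nsmul, ← natCast_zsmul, hP, map_zero]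
  have hv0 : v ≠ 0 := by
    rw [hv]
    intro h
    exact hP0 ((eqv A B (AlgebraicClosure K)).injective (by rw [h, map_zero]))
  have hst : ∀ τ : AlgebraicClosure K ≃ₐ[K] AlgebraicClosure K,
      mp A B (τ : AlgebraicClosure K →ₐ[K] AlgebraicClosure K) v ∈ AddSubgroup.zmultiples v := by
    intro τ
    obtain ⟨m, hm⟩ := AddSubgroup.mem_zmultiples_iff.1 (hcon τ)
    rw [hv, ← gal_eqv]
    have h1 : Affine.Point.map (W' := CV A B) (R := K) (S := K)
        (τ : AlgebraicClosure K →ₐ[K] AlgebraicClosure K) P = m • P := hm.symm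
    rw [h1, map_zsmul]
    exact AddSubgroup.zsmul_mem_zmultiples _ m
  exact h.line hD hj hp hvp hv0 hst

open scoped Classical in
theorem Gd.hyp_all {η : ℝ} {j : K} (h : Gd η j) {A B : K} (hD : 4 * A ^ 3 + 27 * B ^ 2 ≠ 0)
    (hj : jv A B = j) {p : ℕ} (hp : p.Prime) (k : ℕ) :
    Gen.Hyp (fun σ : AlgebraicClosure K ≃ₐ[K] AlgebraicClosure K => act A B σ) p k := by
  refine ⟨fun σ τ v => act_mul A B σ τ v, fun v => act_one A B v, hp,
    fun P hP => div_ep hD hp k hP, ?_, fun P hP hP0 => h.irr hD hj hp hP hP0⟩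
  intro P Q hP hQ hP0 hPQ
  have hP' : p • P = 0 := by rw [← natCast_zsmul]; exact hP
  have hQ' : p • Q = 0 := by rw [← natCast_zsmul]; exact hQ
  obtain ⟨h6, h7⟩ := basis hD hp hP' hQ' hP0 hPQ
  refine ⟨hP, hQ, ?_, h7⟩
  intro R hR
  rw [natCast_zsmul] at hR
  exact h6 R hR

open scoped Classical in
/-- **all levels prime to a simple pole** -/
theorem Gd.sl_level {η : ℝ} {j : K} (h : Gd η j) {A B : K} (hD : 4 * A ^ 3 + 27 * B ^ 2 ≠ 0)
    (hj : jv A B = j) {n : ℕ} (hn : 1 ≤ n)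
    (hv : ∃ v, Sp j v ∧ (adv K v).v (n : K) = 0) : HasSLn A B n := by
  obtain ⟨v, hv, hnv⟩ := hv
  obtain ⟨k1, k2, k3⟩ := adv_sp h.h0 hv
  obtain ⟨P, Q, hB, hA⟩ := Gen.all_levels
    (ρ := fun σ : AlgebraicClosure K ≃ₐ[K] AlgebraicClosure K => act A B σ) hn
    (fun σ τ v => act_mul A B σ τ v) (fun v => act_one A B v)
    (fun p k hp => h.hyp_all hD hj hp k)
    (fun p hp hpn => tau_of hD hn hp hpn v k1 k2 hnv (by rw [hj]; exact k3))
  refine ⟨P, Q, hB, fun a b c d hdet => ?_⟩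
  obtain ⟨σ, h1, h2, -⟩ := hA a b c d hdet
  exact ⟨σ, h1, h2⟩

/-- **levels** -/
theorem Gd.all {η : ℝ} {j : K} (h : Gd η j) : AllSLn (1 / 2) j := by
  intro A B hD hj n hn hlev
  rcases hlev with hp | hlog | hv
  · exact hasSLn_of hD hp (h.sl_all hD hj hp)
  · refine h.sl_level hD hj hn (exists_spn hn ?_)
    have h1 := h.hη
    have h2 := h.sp
    have h3 := h.sp_pos
    have h4 : 0 < Pool.Agent.W223.AK.ht j := h.ht_pos
    nlinarith
  · exact h.sl_level hD hj hn hv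

end Pool.Agent.W2helper23.TB
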