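import Pool.Agent.W2helper23.TB.L3
import Pool.Agent.W2helper23.TB.Uni
import Pool.Agent.N524.TS.SERRE
import Pool.Agent.N617.TS.TORSM
import Pool.Agent.N152.TS.SIZE

/-!
# Abelian varieties isogenous to products of elliptic curves with invariants in several fields (helper23)
-/

set_option autoImplicit false

namespace Pool.Agent.W2helper23.TB

open WeierstrassCurve NumberField IsDedekindDomain
open Pool.Agent.Y673.Loc Pool.Agent.Y673.SL
open Pool.Agent.Q19.SU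
open Pool.Agent.H901R3.MS Pool.Agent.W275.FM
open Pool.Agent.W223.AK (Pr)
open Pool.Agent.N495.TS (S_SERRE S_TORSM tw_exists)

theorem fd (k : Type) [Field k] [NumberField k] (K : Type) [Field K] [NumberField K]
    [Algebra k K] : FiniteDimensional k K :=
  Module.Finite.of_restrictScalars_finite ℚ k K

open scoped Classical in
/-- one factor -/
theorem factor (k : Type) [Field k] [NumberField k] (K : Type) [Field K] [NumberField K]
    [Algebra k K] {A B : K} (hD : 4 * A ^ 3 + 27 * B ^ 2 ≠ 0) {j : k} (hjl : LJk j)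
    (hjv : jv A B = algebraMap k K j) :
    ∃ A₀ B₀ : k, (4 * A₀ ^ 3 + 27 * B₀ ^ 2 ≠ 0 ∧ jv A₀ B₀ = j) ∧ ∀ y : EP A B,
      (∀ σ : AlgebraicClosure K ≃ₐ[K] AlgebraicClosure K, act A B σ y ∈ AddSubgroup.zmultiples y) →
      IsOfFinAddOrder y →
      (∀ l : ℕ, l.Prime → l ∣ addOrderOf y → l + 1 ≤ Module.finrank k K) ∧
      addOrderOf y ≤ Module.finrank k K ^ 2 ∧
      ((∀ N : ℕ, 1 ≤ N → N ≤ Module.finrank k K ^ 2 → HasSLn A₀ B₀ N) →
        addOrderOf y ≤ Module.finrank k K) := by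
  haveI := fd k K
  obtain ⟨M, θ, hfd, hfr, hsurj, htw⟩ := tw_exists (k := k) K
  have hj0 : algebraMap k K j ≠ 0 := by
    rw [Ne, map_eq_zero]
    exact hjl.1
  have hj1 : algebraMap k K j ≠ 1728 := fun h => by
    apply hjl.2.1
    apply (algebraMap k K).injective
    rw [h, map_ofNat]
  obtain ⟨r, hr0, hr1, hr2⟩ := Pool.Agent.Y673.SN.twist_of hD hjv hj0 hj1
  have hne : j - 1728 ≠ 0 := sub_ne_zero.2 hjl.2.1
  have hD0 : 4 * (-3 * j * (j - 1728)) ^ 3 + 27 * (-2 * j * (j - 1728) ^ 2) ^ 2 ≠ 0 := by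
    have e : 4 * (-3 * j * (j - 1728)) ^ 3 + 27 * (-2 * j * (j - 1728) ^ 2) ^ 2 =
        -186624 * j ^ 2 * (j - 1728) ^ 3 := by ring
    rw [e]
    exact mul_ne_zero (mul_ne_zero (by norm_num) (pow_ne_zero 2 hjl.1)) (pow_ne_zero 3 hne)
  have hjv0 : jv (-3 * j * (j - 1728)) (-2 * j * (j - 1728) ^ 2) = j := by
    unfold jv
    rw [div_eq_iff hD0]
    ring
  obtain ⟨φ, hφ, hφ2⟩ := htw A B r (-3 * j * (j - 1728)) (-2 * j * (j - 1728) ^ 2)
    hr0 (by
      rw [← hr1]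
      simp only [map_mul, map_neg, map_sub, map_ofNat]) (by
      rw [← hr2]
      simp only [map_mul, map_neg, map_sub, map_pow, map_ofNat])
  refine ⟨_, _, ⟨hD0, hjv0⟩, ?_⟩
  intro y hy hf
  have hL := hjl.2.2 _ _ hD0 hjv0
  have hc : ∀ τ ∈ M.fixingSubgroup, act (-3 * j * (j - 1728)) (-2 * j * (j - 1728) ^ 2) τ (φ y) ∈
      AddSubgroup.zmultiples (φ y) := by
    intro τ hτ
    obtain ⟨σ, rfl⟩ := hsurj τ hτ
    obtain ⟨m, hm⟩ := AddSubgroup.mem_zmultiples_iff.1 (hy σ)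
    rcases hφ2 σ with h | h
    · refine AddSubgroup.mem_zmultiples_iff.2 ⟨m, ?_⟩
      rw [← h y, ← hm, map_zsmul]
    · refine AddSubgroup.mem_zmultiples_iff.2 ⟨-m, ?_⟩
      have h1 := h y
      rw [← hm, map_zsmul] at h1
      rw [neg_zsmul, h1, neg_neg]
  have hco : addOrderOf (φ y) = addOrderOf y := addOrderOf_injective φ hφ _
  have hcf : IsOfFinAddOrder (φ y) := by
    rw [← addOrderOf_pos_iff, hco]
    exact hf.addOrderOf_pos
  rw [← hfr]
  refine ⟨?_, ?_, ?_⟩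
  · intro l hl hd
    exact cy_prime' hL M hc hcf hl (by rw [hco]; exact hd)
  · have h1 := cy_all' hL M hc hcf
    rwa [hco] at h1
  · intro hs
    have h1 := cy_small' hL M hc hcf hs
    rwa [hco] at h1

open scoped Classical in
/-- **abelian varieties over extensions** -/
theorem tq_mul (hT : S_TORSM) (K : Type) [Field K] [NumberField K] {g d : ℕ} (k : Fin g → Type)
    [∀ i, Field (k i)] [∀ i, NumberField (k i)] [∀ i, Algebra (k i) K] {A B : Fin g → K}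
    (hD : ∀ i, 4 * A i ^ 3 + 27 * B i ^ 2 ≠ 0) (j : ∀ i, k i) (hjl : ∀ i, LJk (j i))
    (hjv : ∀ i, jv (A i) (B i) = algebraMap (k i) K (j i))
    (hd : ∀ i, Module.finrank (k i) K ≤ d)
    (Γ : AddSubgroup (∀ i, EP (A i) (B i))) (hfin : (Γ : Set (∀ i, EP (A i) (B i))).Finite)
    (hst : ∀ σ : AlgebraicClosure K ≃ₐ[K] AlgebraicClosure K, ∀ x ∈ Γ,
      (fun i => act (A i) (B i) σ (x i)) ∈ Γ)
    {x : ∀ i, EP (A i) (B i)}
    (hx : ∀ σ : AlgebraicClosure K ≃ₐ[K] AlgebraicClosure K,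
      (fun i => act (A i) (B i) σ (x i) - x i) ∈ Γ)
    (hf : IsOfFinAddOrder (x : (∀ i, EP (A i) (B i)) ⧸ Γ)) :
    (∀ l : ℕ, l.Prime → l ∣ addOrderOf (x : (∀ i, EP (A i) (B i)) ⧸ Γ) → l + 1 ≤ d) ∧
    addOrderOf (x : (∀ i, EP (A i) (B i)) ⧸ Γ) ≤ d ^ (4 * g) ∧
    ((∀ i, ∀ A₀ B₀ : k i, 4 * A₀ ^ 3 + 27 * B₀ ^ 2 ≠ 0 → jv A₀ B₀ = j i → ∀ N : ℕ, 1 ≤ N →
        N ≤ d ^ 2 → HasSLn A₀ B₀ N) →
      addOrderOf (x : (∀ i, EP (A i) (B i)) ⧸ Γ) ≤ d ^ (2 * g)) := by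
  have hex := fun i => factor (k i) K (hD i) (hjl i) (hjv i)
  choose A₀ B₀ hAB hy using hex
  obtain ⟨c, w, hcw, hdvd⟩ := hT (AlgebraicClosure K ≃ₐ[K] AlgebraicClosure K) g
    (fun i => EP (A i) (B i)) (fun i σ => act (A i) (B i) σ)
    (fun i q hq => span2 (hD i) hq) Γ hfin (fun σ y hy => hst σ y hy) x (fun σ => hx σ) hf
  have hc := fun i => hy i (c i) (hcw i).2.2.1 (hcw i).1
  have hw := fun i => hy i (w i) (fun σ => by
    have h1 : act (A i) (B i) σ (w i) = w i := (hcw i).2.2.2 σ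
    rw [h1]
    exact AddSubgroup.mem_zmultiples _) (hcw i).2.1
  have hpos : 0 < ∏ i, (addOrderOf (c i) * addOrderOf (w i)) :=
    Finset.prod_pos fun i _ => Nat.mul_pos (hcw i).1.addOrderOf_pos (hcw i).2.1.addOrderOf_pos
  refine ⟨?_, ?_, ?_⟩
  · intro l hl hd'
    obtain ⟨i, -, hi⟩ := (Prime.dvd_finsetProd_iff hl.prime _).1 (hd'.trans hdvd)
    rcases (hl.dvd_mul).1 hi with h1 | h1
    · exact ((hc i).1 l hl h1).trans (hd i)
    · exact ((hw i).1 l hl h1).trans (hd i)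
  · refine (Nat.le_of_dvd hpos hdvd).trans ?_
    refine (Finset.prod_le_prod' (g := fun _ => d ^ 4) fun i _ => ?_).trans ?_
    · have h1 := (hc i).2.1.trans (Nat.pow_le_pow_left (hd i) 2)
      have h2 := (hw i).2.1.trans (Nat.pow_le_pow_left (hd i) 2)
      have h3 := Nat.mul_le_mul h1 h2
      rw [← pow_add] at h3
      exact h3
    · rw [Finset.prod_const, Finset.card_univ, Fintype.card_fin, ← pow_mul]
  · intro hz
    refine (Nat.le_of_dvd hpos hdvd).trans ?_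
    refine (Finset.prod_le_prod' (g := fun _ => d ^ 2) fun i _ => ?_).trans ?_
    · have hs : ∀ N : ℕ, 1 ≤ N → N ≤ Module.finrank (k i) K ^ 2 → HasSLn (A₀ i) (B₀ i) N :=
        fun N hN hNd => hz i (A₀ i) (B₀ i) (hAB i).1 (hAB i).2 N hN
          (hNd.trans (Nat.pow_le_pow_left (hd i) 2))
      have h1 := ((hc i).2.2 hs).trans (hd i)
      have h2 := ((hw i).2.2 hs).trans (hd i)
      have h3 := Nat.mul_le_mul h1 h2
      rw [← pow_two] at h3
      exact h3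
    · rw [Finset.prod_const, Finset.card_univ, Fintype.card_fin, ← pow_mul]

/-- **large images** -/
theorem Gd.ljk {k : Type} [Field k] [NumberField k] {η : ℝ} {j : k} (h : Gd η j) : LJk j :=
  ljk_of Pool.Agent.N524.TS.t_SERRE h.h0 h.h1 h.all h.sp_pos

end Pool.Agent.W2helper23.TB
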