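import Pool.Agent.W2helper23.TB.L1
import Pool.Agent.Q19.SU.Uni3
import Pool.Agent.Q19.SU.Gen3
import Pool.Agent.Y673.SL.Bs

/-!
# Roots, elements of the inertia group and levels; copied from `Pool.Agent.Q19.SU.SerAll`,
`Pool.Agent.Q19.SU.Tau` and `Pool.Agent.Q19.SU.AllN` (helper19), with fewer imports (helper23)
-/

set_option autoImplicit false

namespace Pool.Agent.W2helper23.TB

section R

open WeierstrassCurve NumberField IsDedekindDomain Finset Pool.Agent.H691R3
open Pool.Agent.H901R3.MS Pool.Agent.W275.FM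
open Pool.Agent.Y673.Loc Pool.Agent.Y673.SL
open Pool.Agent.W223.AK (Pr)
open Pool.Agent.Y733.LS (Sp sp jj dl Fs_sp Fs_log fv_Na fin_nat)
open Pool.Agent.W223.AK (ht)
open Pool.Agent.Q19.SU

variable {K : Type} [Field K] [NumberField K]

open scoped Classical in
/-- **a stable subgroup of order two** comes from a root over the field -/
theorem root_of {A B : K} (hD : 4 * A ^ 3 + 27 * B ^ 2 ≠ 0)
    {v₀ : Pt (ca (AlgebraicClosure K) A) (ca (AlgebraicClosure K) B)} (hv : 2 • v₀ = 0)
    (hv0 : v₀ ≠ 0)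
    (hst : ∀ τ : AlgebraicClosure K ≃ₐ[K] AlgebraicClosure K,
      mp A B (τ : AlgebraicClosure K →ₐ[K] AlgebraicClosure K) v₀ ∈ AddSubgroup.zmultiples v₀) :
    ∃ x : K, x ^ 3 + A * x + B = 0 := by
  haveI : CharZero (AlgebraicClosure K) :=
    charZero_of_injective_algebraMap (algebraMap K (AlgebraicClosure K)).injective
  have discK : Disc (ca (AlgebraicClosure K) A) (ca (AlgebraicClosure K) B) := by
    unfold Disc ca
    refine mul_ne_zero two_ne_zero ?_
    have e : (4 : AlgebraicClosure K) * (algebraMap K (AlgebraicClosure K) A) ^ 3 +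
        27 * (algebraMap K (AlgebraicClosure K) B) ^ 2 =
        algebraMap K (AlgebraicClosure K) (4 * A ^ 3 + 27 * B ^ 2) := by
      simp only [map_mul, map_add, map_pow, map_ofNat]
    rw [e]
    exact (map_ne_zero _).2 hD
  have h2K : (2 : AlgebraicClosure K) ≠ 0 := two_ne_zero
  have fix : ∀ τ : AlgebraicClosure K ≃ₐ[K] AlgebraicClosure K,
      mp A B (τ : AlgebraicClosure K →ₐ[K] AlgebraicClosure K) v₀ = v₀ := by
    intro τ
    obtain ⟨m, hm⟩ := AddSubgroup.mem_zmultiples_iff.1 (hst τ)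
    have h2 : (2 : ℤ) • v₀ = 0 := by
      rw [← hv]
      exact natCast_zsmul v₀ 2
    rcases Int.even_or_odd m with ⟨k, hk⟩ | ⟨k, hk⟩
    · exfalso
      apply hv0
      apply mp_injective A B (τ : AlgebraicClosure K →ₐ[K] AlgebraicClosure K)
      rw [← hm, map_zero, hk, ← two_mul, mul_comm, mul_zsmul, h2, zsmul_zero]
    · rw [← hm, hk, add_zsmul, mul_comm, mul_zsmul, h2, zsmul_zero, zero_add, one_zsmul]
  rcases v₀ with _ | ⟨x, y, h⟩
  · exact absurd rfl hv0
  have hxy : ∀ τ : AlgebraicClosure K ≃ₐ[K] AlgebraicClosure K, τ x = x := by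
    intro τ
    have h1 := fix τ
    rw [mp_some] at h1
    exact (pt_inj h1).1
  have hy0 : y = 0 := by
    by_contra hy
    have hyy : y ≠ -y := by
      intro h1
      apply hy
      have h2 : 2 * y = 0 := by linear_combination h1
      exact (mul_eq_zero.1 h2).resolve_left h2K
    rw [two_nsmul] at hv
    obtain ⟨h3, h4⟩ := add_dbl h h rfl hyy _ _ _ rfl rfl rfl
    rw [h4] at hv
    exact absurd hv (Affine.Point.some_ne_zero h3)
  have hE := (nonsingular_iff discK).1 h
  unfold Eqn at hE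
  rw [hy0] at hE
  obtain ⟨x₀, rfl⟩ := (InfiniteGalois.mem_range_algebraMap_iff_fixed (k := K) x).2 hxy
  refine ⟨x₀, (algebraMap K (AlgebraicClosure K)).injective ?_⟩
  rw [map_zero, map_add, map_add, map_pow, map_mul]
  unfold ca at hE
  linear_combination -hE

end R

section T

open WeierstrassCurve NumberField IsDedekindDomain Pool.Agent.H901R3.MS Pool.Agent.Y673.Loc
open Pool.Agent.Y673.Loc.ZV Pool.Agent.W275.FM Pool.Agent.W275.FMK Pool.Agent.Y673.FM
open Pool.Agent.W223.AK (Pr)
open Pool.Agent.Q19.SU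

section el
variable {K : Type} [Field K] [NumberField K] {L : Type} [Field L] [NumberField L] [Algebra K L]
  [DecidableEq L]

/-- an element of `p`-power order of the inertia group which does not act trivially on the points of
order `p` -/
theorem exists_el [IsGalois K L] (w : HeightOneSpectrum (𝓞 L)) {H : ℤ} {e η : L}
    (D : Dt (adv L w) 0 H e η) {A B : K} (hA : algebraMap K L A = cA e η)
    (hB : algebraMap K L B = cB e η)
    (hH : 2 * H = Nat.card (w.asIdeal.inertia (L ≃ₐ[K] L))) {p : ℕ} (hp : p.Prime)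
    (hlev : Odd p → ∃ P : Pt (cA e η) (cB e η), p • P = 0 ∧
      ∃ a, 0 < a ∧ LV (adv L w) 0 H e η P a) :
    ∃ σ : L ≃ₐ[K] L, In (adv L w) (rh σ) ∧ (∃ s : ℕ, σ ^ (p ^ s) = 1) ∧
      ∃ (ha : rh σ (cA e η) = cA e η) (hb : rh σ (cB e η) = cB e η) (P : Pt (cA e η) (cB e η)),
        p • P = 0 ∧ ac two_ne_zero (rh σ) ha hb P ≠ P := by
  rcases hp.eq_two_or_odd' with rfl | hodd
  · -- the prime two
    have hz := z_val D
    have hH1 := D.dat.hH
    have hη0 : η ≠ 0 := by
      rintro rfl
      apply hz.1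
      rw [zero_div]
    obtain ⟨I, hI⟩ : ∃ I, I = w.asIdeal.inertia (L ≃ₐ[K] L) := ⟨_, rfl⟩
    rw [← hI] at hH
    have : Finite (L ≃ₐ[K] L) := inferInstance
    obtain ⟨s, m, hm, hIm⟩ := Nat.exists_eq_pow_mul_and_not_dvd (Nat.card_pos (α := I)).ne' 2
      (by norm_num)
    have : Fact (Nat.Prime 2) := ⟨hp⟩
    obtain ⟨S, hS⟩ := Sylow.exists_subgroup_card_pow_prime (G := I) 2 (n := s)
      (by rw [hIm]; exact Dvd.intro _ rfl)
    obtain ⟨J, hJ⟩ : ∃ J : Subgroup (L ≃ₐ[K] L), J = S.map I.subtype := ⟨_, rfl⟩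
    have hJI : J ≤ I := by
      rw [hJ]
      exact Subgroup.map_subtype_le S
    have hJc : Nat.card J = 2 ^ s := by
      rw [hJ, ← hS]
      exact (Nat.card_congr (S.equivMapOfInjective I.subtype I.subtype_injective).toEquiv).symm
    obtain ⟨σ, hσJ, hσz⟩ : ∃ σ ∈ J, σ (η / (3 * e)) ≠ η / (3 * e) := by
      by_contra hcon
      push Not at hcon
      have h1 := fix_dvd K L w J (by rw [← hI]; exact hJI) _ hcon
      rw [hJc, hz.2] at h1
      obtain ⟨c, hc⟩ := h1
      have h2 : ((2 : ℤ) ^ s) * m = (2 : ℤ) ^ s * (2 * c) := by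
        have h3 : (Nat.card I : ℤ) = (2 : ℤ) ^ s * m := by rw [hIm]; push_cast; ring
        rw [← h3, ← hH, hc]; push_cast; ring
      have h4 := mul_left_cancel₀ (pow_ne_zero s (two_ne_zero (α := ℤ))) h2
      apply hm
      have : (2 : ℤ) ∣ (m : ℤ) := ⟨c, h4⟩
      exact_mod_cast this
    have hJk : σ ^ (2 ^ s) = 1 := by
      have h1 : (⟨σ, hσJ⟩ : J) ^ (2 ^ s) = 1 := by rw [← hJc]; exact pow_card_eq_one'
      have := congrArg (fun x : J => (x : L ≃ₐ[K] L)) h1
      simpa using this
    have ha : rh σ (cA e η) = cA e η := by rw [← hA]; exact σ.commutes A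
    have hb : rh σ (cB e η) = cB e η := by rw [← hB]; exact σ.commutes B
    have hin : In (adv L w) (rh σ) := inertia_In K L w (by rw [← hI]; exact hJI hσJ)
    obtain ⟨he, hη⟩ := he_of D hin ha hb
    have he' : σ e = e := he
    have hη' : σ η = -η := by
      rcases hη with h | h
      · exfalso
        apply hσz
        have h' : σ η = η := h
        rw [map_div₀, map_mul, map_ofNat, he', h']
      · exact h
    have hns : (CV (cA e η) (cB e η)).toAffine.Nonsingular (e + η) 0 := by
      rw [nonsingular_iff D.disc]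
      unfold Eqn cA cB
      ring
    refine ⟨σ, hin, ⟨s, hJk⟩, ha, hb, Affine.Point.some (e + η) 0 hns, ?_, ?_⟩
    · rw [two_nsmul]
      exact add_opp hns hns rfl (by simp)
    · rw [ac_some]
      intro h
      have h5 : σ (e + η) = e + η := (pt_inj h).1
      rw [map_add, he', hη'] at h5
      apply hη0
      have h6 : (2 : L) * η = 0 := by linear_combination -h5
      exact (mul_eq_zero.1 h6).resolve_left two_ne_zero
  · obtain ⟨P, hP, a, ha0, hl⟩ := hlev hodd
    by_contra hcon
    push Not at hcon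
    have hP0 : P ≠ 0 := by
      rintro rfl
      have h1 : a = 0 := hl
      omega
    have h0 := level_fix w D hA hB hH hp hodd hP hP0
      (fun σ ha hb hin s hs _ => hcon σ hin ⟨s, hs⟩ ha hb P hP)
    have := LV.unique D h0 hl
    omega

end el

section tau
variable {K : Type} [Field K] [NumberField K]

open scoped Classical in
/-- **the elements of the inertia group at a simple pole** -/
theorem tau_of {A B : K} (hD : 4 * A ^ 3 + 27 * B ^ 2 ≠ 0) {N p : ℕ} (hN : 1 ≤ N) (hp : p.Prime)
    (hpN : p ∣ N) (v : Pr K) (h2 : (adv K v).v 2 = 0) (h3 : (adv K v).v 3 = 0)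
    (hNv : (adv K v).v (N : K) = 0) (hj : (adv K v).v (jv A B) = -1) :
    Gen.Tau (fun σ : AlgebraicClosure K ≃ₐ[K] AlgebraicClosure K => act A B σ) N p := by
  obtain ⟨L, iF, iN, iA, iG, ι, w, H, e, η, D, hA, hB, hH, ⟨s, hs⟩, hι, hτσ, hadv⟩ :=
    setup hD hN v h2 hj
  have hιA : ∀ a : K, ι (algebraMap K L a) = ca (AlgebraicClosure K) a := fun a => ι.commutes a
  have hιcA : ι (cA e η) = ca (AlgebraicClosure K) A := by rw [← hA, hιA]
  have hιcB : ι (cB e η) = ca (AlgebraicClosure K) B := by rw [← hB, hιA]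
  have hchar : CharZero (AlgebraicClosure K) :=
    charZero_of_injective_algebraMap (algebraMap K (AlgebraicClosure K)).injective
  have discK : Disc (ca (AlgebraicClosure K) A) (ca (AlgebraicClosure K) B) := by
    unfold Disc ca
    refine mul_ne_zero two_ne_zero ?_
    have e : (4 : AlgebraicClosure K) * (algebraMap K (AlgebraicClosure K) A) ^ 3 +
        27 * (algebraMap K (AlgebraicClosure K) B) ^ 2 =
        algebraMap K (AlgebraicClosure K) (4 * A ^ 3 + 27 * B ^ 2) := by
      simp only [map_mul, map_add, map_pow, map_ofNat]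
    rw [e]
    exact (map_ne_zero _).2 hD
  have hH1 := D.dat.hH
  -- the place is prime to `N` and to `p`
  have hNL : (adv L w).E 0 (N : L) := by
    refine ⟨Nat.cast_ne_zero.2 (by omega), ?_⟩
    have := hadv (N : K)
    rwa [map_natCast, hNv, mul_zero] at this
  have h3L : (adv L w).E 0 (3 : L) := by
    refine ⟨three_ne_zero, ?_⟩
    have := hadv 3
    rwa [map_ofNat, h3, mul_zero] at this
  -- the homomorphism
  obtain ⟨T, hT⟩ : ∃ T : Pt (cA e η) (cB e η) →+ Pt (ca (AlgebraicClosure K) A)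
      (ca (AlgebraicClosure K) B), T = tw (ι : L →+* AlgebraicClosure K) 1 two_ne_zero one_ne_zero
        (by rw [one_pow, one_mul]; exact hιcA) (by rw [one_pow, one_mul]; exact hιcB) := ⟨_, rfl⟩
  have hns : ∀ {x y : L}, (CV (cA e η) (cB e η)).toAffine.Nonsingular x y →
      (CV (ca (AlgebraicClosure K) A) (ca (AlgebraicClosure K) B)).toAffine.Nonsingular (ι x)
        (ι y) := by
    intro x y h
    rw [nonsingular_iff discK]
    have := (nonsingular_iff D.disc).1 h
    unfold Eqn at this ⊢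
    rw [← hιcA, ← hιcB, ← map_pow, this]
    simp only [map_add, map_mul, map_pow]
  have hTsome : ∀ {x y : L} (h : (CV (cA e η) (cB e η)).toAffine.Nonsingular x y),
      T (Affine.Point.some x y h) = Affine.Point.some (ι x) (ι y) (hns h) := by
    intro x y h
    rw [hT, tw_some]
    refine pt_ext _ _ ?_ ?_
    · rw [one_pow, div_one]; rfl
    · rw [one_pow, div_one]; rfl
  have hTinj : Function.Injective T := by rw [hT]; exact tw_inj _ _ _ _ _ _
  have hTsurj : ∀ R : Pt (ca (AlgebraicClosure K) A) (ca (AlgebraicClosure K) B), N • R = 0 →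
      ∃ R', T R' = R := by
    rintro (_ | ⟨x, y, h⟩) hR
    · exact ⟨0, map_zero _⟩
    · obtain ⟨x', hx'⟩ := hι x ⟨x, y, h, hR, Or.inl rfl⟩
      obtain ⟨y', hy'⟩ := hι y ⟨x, y, h, hR, Or.inr rfl⟩
      have hn : (CV (cA e η) (cB e η)).toAffine.Nonsingular x' y' := by
        rw [nonsingular_iff D.disc]
        have := (nonsingular_iff discK).1 h
        unfold Eqn at this ⊢
        have h1 : ι (y' ^ 2) = ι (x' ^ 3 + cA e η * x' + cB e η) := by
          simp only [map_add, map_mul, map_pow]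
          rw [hx', hy', hιcA, hιcB]
          exact this
        exact ι.injective h1
      exact ⟨Affine.Point.some x' y' hn, by rw [hTsome]; exact pt_ext _ _ hx' hy'⟩
  obtain ⟨σ, hin, ⟨t, ht⟩, ha, hb, P, hP, hPne⟩ := exists_el w D hA hB hH hp (by
    intro hodd
    refine pos_level D (ι : L →+* AlgebraicClosure K) (n := p) hodd ?_ ?_
    · intro x' y' h h0
      have e1 : (ι : L →+* AlgebraicClosure K) (cA e η) = ca (AlgebraicClosure K) A := hιcA
      have e2 : (ι : L →+* AlgebraicClosure K) (cB e η) = ca (AlgebraicClosure K) B := hιcB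
      revert h h0
      rw [e1, e2]
      intro h h0
      have h0' : N • (Affine.Point.some x' y' h :
          Pt (ca (AlgebraicClosure K) A) (ca (AlgebraicClosure K) B)) = 0 := by
        obtain ⟨c, hc⟩ := hpN
        rw [hc, mul_comm, mul_nsmul', h0, nsmul_zero]
      obtain ⟨x'', hx''⟩ := hι x' ⟨x', y', h, h0', Or.inl rfl⟩
      obtain ⟨y'', hy''⟩ := hι y' ⟨x', y', h, h0', Or.inr rfl⟩
      exact ⟨⟨x'', hx''⟩, ⟨y'', hy''⟩⟩
    · have h1 : (adv L w).v (p : L) = 0 := by
        obtain ⟨c, hc⟩ := hpN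
        have hc0 : c ≠ 0 := by
          rintro rfl
          omega
        have h4 := hNL
        rw [hc] at h4
        push_cast at h4
        have h5 := (E_of_ne (w := adv L w) (Nat.cast_ne_zero.2 hp.ne_zero : (p : L) ≠ 0)).mul
          (E_of_ne (w := adv L w) (Nat.cast_ne_zero.2 hc0 : (c : L) ≠ 0))
        have h6 := h4.eq h5
        have h7 : 0 ≤ (adv L w).v (p : L) :=
          (E_of_ne (w := adv L w) (Nat.cast_ne_zero.2 hp.ne_zero : (p : L) ≠ 0)).le_of_G (gn p)
        have h8 : 0 ≤ (adv L w).v (c : L) :=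
          (E_of_ne (w := adv L w) (Nat.cast_ne_zero.2 hc0 : (c : L) ≠ 0)).le_of_G (gn c)
        omega
      rw [h1, mul_zero]
      apply mul_pos
      · have : (2 : ℤ) ≤ p := by exact_mod_cast hp.two_le
        nlinarith
      · omega)
  obtain ⟨he, -⟩ := he_of D hin ha hb
  obtain ⟨χ, hχ, hχs, hu⟩ := unip3 D h3L hs hin ha hb he
  obtain ⟨τ, hτ⟩ := hτσ σ
  have hpow : ∀ (n : ℕ) (x : L), ι ((σ ^ n) x) = (τ ^ n) (ι x) := by
    intro n
    induction n with
    | zero => intro x; rfl
    | succ n ih =>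
      intro x
      rw [pow_succ, pow_succ, AlgEquiv.mul_apply, AlgEquiv.mul_apply, ih, hτ]
  have hequiv : ∀ R : Pt (cA e η) (cB e η), act A B τ ((eqv A B (AlgebraicClosure K)).symm (T R)) =
      (eqv A B (AlgebraicClosure K)).symm (T (ac two_ne_zero (rh σ) ha hb R)) := by
    rintro (_ | ⟨x, y, h⟩)
    · have h0 : (Affine.Point.zero : Pt (cA e η) (cB e η)) = 0 := rfl
      rw [h0, map_zero, map_zero, map_zero, map_zero, map_zero, map_zero]
    · rw [hTsome, ac_some, hTsome, act_coord]
      refine congrArg _ (pt_ext _ _ ?_ ?_)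
      · rw [← hτ]; rfl
      · rw [← hτ]; rfl
  have hχp : χ = 1 ∨ (χ = -1 ∧ p = 2) := by
    rcases hχ with h | h
    · exact Or.inl h
    · refine Or.inr ⟨h, ?_⟩
      rcases hp.eq_two_or_odd' with h2 | hodd
      · exact h2
      · exfalso
        have hσs : σ s = -s := by
          have : σ s = (χ : L) * s := hχs
          rw [this, h]; push_cast; ring
        have hiter : ∀ n : ℕ, (σ ^ n) s = (-1) ^ n * s := by
          intro n
          induction n with
          | zero => simp
          | succ n ih =>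
            rw [pow_succ', AlgEquiv.mul_apply, ih, map_mul, map_pow, map_neg, map_one, hσs]
            ring
        have h1 := hiter (p ^ t)
        rw [ht, (hodd.pow).neg_one_pow] at h1
        have h4 : (2 : L) * s = 0 := by
          have : s = -1 * s := h1
          linear_combination this
        have hs0 : s = 0 := (mul_eq_zero.1 h4).resolve_left two_ne_zero
        apply D.h3e
        rw [← hs, hs0]; ring
  refine ⟨τ, χ, hχp, ?_, ⟨t, ?_⟩, (eqv A B (AlgebraicClosure K)).symm (T P), ?_, ?_⟩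
  · intro R hR
    obtain ⟨R', rfl⟩ : ∃ R', (eqv A B (AlgebraicClosure K)).symm R' = R :=
      ⟨_, AddEquiv.symm_apply_apply _ _⟩
    have hR' : N • R' = 0 := by
      apply (eqv A B (AlgebraicClosure K)).symm.injective
      rw [map_nsmul, map_zero, ← natCast_zsmul]
      exact hR
    obtain ⟨R'', rfl⟩ := hTsurj R' hR'
    have hR'' : N • R'' = 0 := by
      apply hTinj
      rw [map_nsmul, hR', map_zero]
    have h1 := hu N hNL R'' hR''
    obtain ⟨Φ, hΦ⟩ : ∃ Φ : Pt (cA e η) (cB e η) →+ EP A B,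
        Φ = (eqv A B (AlgebraicClosure K)).symm.toAddMonoidHom.comp T := ⟨_, rfl⟩
    have hΦa : ∀ R, act A B τ (Φ R) = Φ (ac two_ne_zero (rh σ) ha hb R) := by
      intro R
      rw [hΦ]
      exact hequiv R
    have hΦR : (eqv A B (AlgebraicClosure K)).symm (T R'') = Φ R'' := by rw [hΦ]; rfl
    have e1 : ∀ R, χ • act A B τ (Φ R) - Φ R = Φ (χ • ac two_ne_zero (rh σ) ha hb R - R) := by
      intro R
      rw [hΦa, ← map_zsmul, ← map_sub]
    show χ • act A B τ (χ • act A B τ _ - _) = χ • act A B τ _ - _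
    rw [hΦR, e1, hΦa, ← map_zsmul, h1]
  · intro R hR
    obtain ⟨R', rfl⟩ : ∃ R', (eqv A B (AlgebraicClosure K)).symm R' = R :=
      ⟨_, AddEquiv.symm_apply_apply _ _⟩
    have hR' : N • R' = 0 := by
      apply (eqv A B (AlgebraicClosure K)).symm.injective
      rw [map_nsmul, map_zero, ← natCast_zsmul]
      exact hR
    obtain ⟨R'', rfl⟩ := hTsurj R' hR'
    rcases R'' with _ | ⟨x, y, h⟩
    · have h0 : (Affine.Point.zero : Pt (cA e η) (cB e η)) = 0 := rfl
      rw [h0, map_zero, map_zero, map_zero]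
    · rw [hTsome]
      show act A B (τ ^ (p ^ t)) _ = _
      rw [act_coord]
      refine congrArg _ (pt_ext _ _ ?_ ?_)
      · rw [← hpow, ht]; rfl
      · rw [← hpow, ht]; rfl
  · rw [← map_zsmul, ← map_zsmul, natCast_zsmul, hP, map_zero, map_zero]
  · show act A B τ _ ≠ _
    rw [hequiv]
    intro h
    exact hPne (hTinj ((eqv A B (AlgebraicClosure K)).symm.injective h))

end tau

end T

section N

open WeierstrassCurve NumberField IsDedekindDomain Finset Pool.Agent.H691R3
open Pool.Agent.H901R3.MS Pool.Agent.W275.FM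
open Pool.Agent.Y673.Loc Pool.Agent.Y673.SL
open Pool.Agent.W223.AK (Pr)
open Pool.Agent.Y733.LS (Sp sp jj dl Fs_sp Fs_log fv_Na fin_nat)
open Pool.Agent.W223.AK (ht)
open Pool.Agent.Q19.SU

variable {K : Type} [Field K] [NumberField K]

omit [NumberField K] in
open scoped Classical in
theorem act_mul (A B : K) (σ τ : AlgebraicClosure K ≃ₐ[K] AlgebraicClosure K) (P : EP A B) :
    act A B (σ * τ) P = act A B σ (act A B τ P) := by
  unfold act
  rw [Affine.Point.map_map]
  rfl

omit [NumberField K] in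
open scoped Classical in
theorem act_one (A B : K) (P : EP A B) :
    act A B (1 : AlgebraicClosure K ≃ₐ[K] AlgebraicClosure K) P = P := by
  unfold act
  rcases P with _ | ⟨x, y, h⟩
  · rfl
  · rfl

open scoped Classical in
/-- the image contains all automorphisms of determinant one of the points killed by `n` -/
def HasSLn (A B : K) (n : ℕ) : Prop :=
  ∃ P Q : EP A B, Gen.Bas n P Q ∧ ∀ a b c d : ℤ, (n : ℤ) ∣ a * d - b * c - 1 →
    ∃ σ : AlgebraicClosure K ≃ₐ[K] AlgebraicClosure K,
      act A B σ P = a • P + c • Q ∧ act A B σ Q = b • P + d • Q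

open scoped Classical in
theorem hasSLn_of {A B : K} (hD : 4 * A ^ 3 + 27 * B ^ 2 ≠ 0) {p : ℕ} (hp : p.Prime)
    (h : HasSL A B p) : HasSLn A B p := by
  obtain ⟨P, Q, h1, h2, h3, h4, h5⟩ := h
  obtain ⟨h6, h7⟩ := basis hD hp h1 h2 h3 h4
  refine ⟨P, Q, ⟨?_, ?_, ?_, h7⟩, h5⟩
  · rw [natCast_zsmul]; exact h1
  · rw [natCast_zsmul]; exact h2
  · intro R hR
    rw [natCast_zsmul] at hR
    exact h6 R hR

open scoped Classical in
/-- divisibility of the torsion -/
theorem div_ep {A B : K} (hD : 4 * A ^ 3 + 27 * B ^ 2 ≠ 0) {p : ℕ} (hp : p.Prime) (k : ℕ)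
    {P : EP A B} (hP : (p : ℤ) • P = 0) : ∃ Q : EP A B, ((p : ℤ) ^ k) • Q = P := by
  haveI : CharZero (AlgebraicClosure K) :=
    charZero_of_injective_algebraMap (algebraMap K (AlgebraicClosure K)).injective
  have hfin : ∀ n : ℕ, 1 ≤ n →
      {P : Pt (ca (AlgebraicClosure K) A) (ca (AlgebraicClosure K) B) | n • P = 0}.Finite ∧
      n ^ 2 ≤ {P : Pt (ca (AlgebraicClosure K) A) (ca (AlgebraicClosure K) B) |
        n • P = 0}.ncard := fun n hn =>
    Mul.tor (AlgebraicClosure K) _ _ (Pool.Agent.Y673.FM.disc_ca hD) n hn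
  have hup := Pool.Agent.Y673.FM.tor_upper (Pool.Agent.Y673.FM.disc_ca hD) hp (hfin p hp.one_le).1
  obtain ⟨Q, hQ⟩ := Pool.Agent.Y673.FM.div_grp hp.one_le hfin hup k
    (P' := eqv A B (AlgebraicClosure K) P) (by
      rw [← map_nsmul, ← natCast_zsmul, hP, map_zero])
  refine ⟨(eqv A B (AlgebraicClosure K)).symm Q, ?_⟩
  apply (eqv A B (AlgebraicClosure K)).injective
  rw [map_zsmul, AddEquiv.apply_symm_apply, ← hQ]
  have : ((p : ℤ) ^ k) = ((p ^ k : ℕ) : ℤ) := by push_cast; rfl
  rw [this, natCast_zsmul]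

open Classical in
/-- a simple pole which does not divide `n` -/
theorem exists_spn {j : K} {n : ℕ} (hn : 1 ≤ n)
    (h : Module.finrank ℚ K * Real.log n < sp j) : ∃ v, Sp j v ∧ (adv K v).v (n : K) = 0 := by
  by_contra hc
  push Not at hc
  have hpK : (n : K) ≠ 0 := Nat.cast_ne_zero.2 (by omega)
  have hle : sp j ≤ ∑ᶠ v : Pr K, -Real.log (fv v (n : K)) := by
    unfold Pool.Agent.Y733.LS.sp
    have s2 : (Function.support fun v : Pr K => -Real.log (fv v (n : K))).Finite := by
      have := Fs_log (K := K) hpK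
      refine this.subset fun v hv => ?_
      rw [Function.mem_support] at hv ⊢
      intro h0
      have h0' : Real.log (fv v (n : K)) = 0 := h0
      exact hv (by rw [h0', neg_zero])
    refine finsum_le_finsum' (Fs_sp j) s2 fun v => ?_
    show (if Sp j v then Real.log (Nv v) else 0) ≤ -Real.log (fv v (n : K))
    have h0 : Real.log (fv v (n : K)) ≤ 0 :=
      Real.log_nonpos (AbsoluteValue.nonneg _ _) ((fv_Na v).nat n)
    split_ifs with hS
    · have hne := hc v hS
      have hN := Pool.Agent.W223.AK.Nv_one_lt v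
      have hlN : 0 < Real.log (Nv v) := Real.log_pos hN
      have e := Pool.Agent.Y673.Cnt.fv_adv v hpK
      have h1 : Real.log (fv v (n : K)) = -((adv K v).v (n : K) : ℝ) * Real.log (Nv v) := by
        rw [e, Real.log_zpow]
        push_cast
        ring
      rw [h1] at h0 ⊢
      have h2 : 0 ≤ (adv K v).v (n : K) := by
        by_contra hneg
        push Not at hneg
        have : ((adv K v).v (n : K) : ℝ) < 0 := by exact_mod_cast hneg
        nlinarith
      have h3 : 1 ≤ (adv K v).v (n : K) := by omega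
      have h4 : (1 : ℝ) ≤ ((adv K v).v (n : K) : ℝ) := by exact_mod_cast h3
      nlinarith
    · linarith
  rw [finsum_neg_distrib, fin_nat (by omega), neg_neg] at hle
  linarith

/-- the levels -/
def Lev (t : ℝ) (j : K) (n : ℕ) : Prop :=
  n.Prime ∨ Module.finrank ℚ K * Real.log n ≤ (1 - t) * ht j ∨ ∃ v, Sp j v ∧ (adv K v).v (n : K) = 0

/-- for all curves of invariant `j` and all levels of the definition -/
def AllSLn (t : ℝ) (j : K) : Prop := ∀ A B : K, 4 * A ^ 3 + 27 * B ^ 2 ≠ 0 → jv A B = j →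
  ∀ n : ℕ, 1 ≤ n → Lev t j n → HasSLn A B n

end N

end Pool.Agent.W2helper23.TB
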