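import Pool.Agent.W2helper23.TB.L2
import Pool.Agent.N495.TS.StmR
import Pool.Agent.N495.TS.TW

/-!
# Stable cyclic subgroups over extensions; copied from `Pool.Agent.N495.TS` (Cyc, TK, SerreA, GenB)
(helper495), with fewer imports (helper23)
-/

set_option autoImplicit false

namespace Pool.Agent.W2helper23.TB

open WeierstrassCurve NumberField IsDedekindDomain
open Pool.Agent.Y673.Loc Pool.Agent.Y673.SL
open Pool.Agent.Q19.SU
open Pool.Agent.H901R3.MS Pool.Agent.W275.FM
open Pool.Agent.W223.AK (Pr)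
open Pool.Agent.N495.TS (S_SERRE tw_exists)

open scoped Classical in
/-- the degree of the field of definition of a cyclic subgroup -/
theorem orb_line {K : Type} [Field K] [NumberField K] {A B : K} {n : ℕ} (hn : 1 < n) (h : HasSLn A B n)
    (M : IntermediateField K (AlgebraicClosure K)) [FiniteDimensional K M] {z : EP A B}
    (hz : ∀ σ ∈ M.fixingSubgroup, act A B σ z ∈ AddSubgroup.zmultiples z)
    (hord : addOrderOf z = n) : n + 1 ≤ Module.finrank K M := by
  obtain ⟨P, Q, hB, hsl⟩ := h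
  have hn1 : 1 ≤ n := hn.le
  have hnz : (n : ℤ) • z = 0 := by
    rw [natCast_zsmul, ← hord]; exact addOrderOf_nsmul_eq_zero z
  obtain ⟨α, γ, hαγ⟩ := hB.span z hnz
  -- the coordinates are primitive
  have hprim : ∀ a c : ℕ, Nat.gcd (Nat.gcd a c) n = 1 → ∃ σ : AlgebraicClosure K ≃ₐ[K]
      AlgebraicClosure K, act A B σ P = (a : ℤ) • P + (c : ℤ) • Q := by
    intro a c hac
    have e1 := Nat.gcd_eq_gcd_ab (Nat.gcd a c) n
    have e2 := Nat.gcd_eq_gcd_ab a c
    rw [hac] at e1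
    obtain ⟨σ, h1, -⟩ := hsl a (-(Nat.gcdB a c * Nat.gcdA (Nat.gcd a c) n)) c
      (Nat.gcdA a c * Nat.gcdA (Nat.gcd a c) n)
      ⟨-(Nat.gcdB (Nat.gcd a c) n), by
        have e3 : ((Nat.gcd a c : ℕ) : ℤ) = a * Nat.gcdA a c + c * Nat.gcdB a c := e2
        have e4 : ((1 : ℕ) : ℤ) = (Nat.gcd a c : ℕ) * Nat.gcdA (Nat.gcd a c) n +
          n * Nat.gcdB (Nat.gcd a c) n := e1
        rw [e3] at e4
        push_cast at e4
        linear_combination -e4⟩
    exact ⟨σ, h1⟩
  have hzP : ∃ σ : AlgebraicClosure K ≃ₐ[K] AlgebraicClosure K, act A B σ P = z := by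
    have hpos : (0 : ℤ) < n := by exact_mod_cast hn1
    obtain ⟨a, ha⟩ : ∃ a : ℕ, (a : ℤ) = α % n := ⟨(α % n).toNat, Int.toNat_of_nonneg
      (Int.emod_nonneg _ hpos.ne')⟩
    obtain ⟨c, hc⟩ : ∃ c : ℕ, (c : ℤ) = γ % n := ⟨(γ % n).toNat, Int.toNat_of_nonneg
      (Int.emod_nonneg _ hpos.ne')⟩
    have hza : z = (a : ℤ) • P + (c : ℤ) • Q := by
      rw [hαγ]
      congr 1
      · refine Gen.smul_congr hB.hP ?_
        rw [ha]
        exact Int.dvd_self_sub_emod
      · refine Gen.smul_congr hB.hQ ?_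
        rw [hc]
        exact Int.dvd_self_sub_emod
    obtain ⟨σ, hσ⟩ := hprim a c (by
      obtain ⟨g, hg⟩ : ∃ g, g = Nat.gcd (Nat.gcd a c) n := ⟨_, rfl⟩
      rw [← hg]
      have hgn : g ∣ n := by rw [hg]; exact Nat.gcd_dvd_right _ _
      have hgac : g ∣ Nat.gcd a c := by rw [hg]; exact Nat.gcd_dvd_left _ _
      obtain ⟨m, hm⟩ := hgn
      obtain ⟨a', ha'⟩ := hgac.trans (Nat.gcd_dvd_left _ _)
      obtain ⟨c', hc'⟩ := hgac.trans (Nat.gcd_dvd_right _ _)
      have h1 : m • z = 0 := by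
        rw [← natCast_zsmul, hza, ha', hc']
        push_cast
        have e1 : (m : ℤ) • (((g : ℤ) * a') • P + ((g : ℤ) * c') • Q) =
            (a' : ℤ) • (((g * m : ℕ) : ℤ) • P) + (c' : ℤ) • (((g * m : ℕ) : ℤ) • Q) := by
          push_cast
          module
        rw [e1, ← hm, hB.hP, hB.hQ, smul_zero, smul_zero, add_zero]
      have h2 := addOrderOf_dvd_of_nsmul_eq_zero h1
      rw [hord] at h2
      have hm0 : 0 < m := by
        rcases Nat.eq_zero_or_pos m with h0 | h0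
        · rw [h0, mul_zero] at hm; omega
        · exact h0
      have h3 := Nat.le_of_dvd hm0 h2
      rw [hm] at h3
      have hg0 : 0 < g := by
        rcases Nat.eq_zero_or_pos g with h0 | h0
        · rw [h0, zero_mul] at hm; omega
        · exact h0
      nlinarith)
    exact ⟨σ, by rw [hσ, ← hza]⟩
  obtain ⟨σ₀, hσ₀⟩ := hzP
  have hP0 : P = act A B σ₀⁻¹ z := by
    rw [← hσ₀, ← act_mul, inv_mul_cancel, act_one]
  -- the lines
  obtain ⟨T, hT⟩ : ∃ T : Finset (ℕ × ℕ), T = insert (0, 1) ((Finset.range n).image fun k => (1, k)) :=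
    ⟨_, rfl⟩
  have hTcard : T.card = n + 1 := by
    rw [hT, Finset.card_insert_of_notMem, Finset.card_image_of_injective, Finset.card_range]
    · intro a b hab
      exact (Prod.ext_iff.1 hab).2
    · intro hmem
      obtain ⟨k, -, hk⟩ := Finset.mem_image.1 hmem
      exact one_ne_zero (Prod.ext_iff.1 hk).1
  have hTm : ∀ q ∈ T, q = (0, 1) ∨ ∃ k < n, q = (1, k) := by
    intro q hq
    rw [hT, Finset.mem_insert, Finset.mem_image] at hq
    rcases hq with rfl | ⟨k, hk, rfl⟩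
    · exact Or.inl rfl
    · exact Or.inr ⟨k, Finset.mem_range.1 hk, rfl⟩
  have key : ∀ q ∈ T, ∃ σ : AlgebraicClosure K ≃ₐ[K] AlgebraicClosure K,
      act A B σ z = (q.1 : ℤ) • P + (q.2 : ℤ) • Q := by
    intro q hq
    obtain ⟨σ, hσ⟩ := hprim q.1 q.2 (by
      rcases hTm q hq with rfl | ⟨k, -, rfl⟩
      · simp
      · simp)
    refine ⟨σ * σ₀⁻¹, ?_⟩
    rw [act_mul, ← hP0, hσ]
  choose! s hs using key
  rw [← hTcard]
  rw [← AlgHom.card K M (AlgebraicClosure K)]
  refine (Finset.card_le_card_of_injOn (fun q => ((s q : AlgebraicClosure K ≃ₐ[K]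
    AlgebraicClosure K) : AlgebraicClosure K →ₐ[K] AlgebraicClosure K).comp M.val)
    (fun q _ => Finset.mem_coe.2 (Finset.mem_univ _)) ?_)
  intro q hq q' hq' heq
  have h1 : (s q')⁻¹ * s q ∈ M.fixingSubgroup := by
    rw [IntermediateField.mem_fixingSubgroup_iff]
    intro x hx
    have h2 := congrArg (fun f : M →ₐ[K] AlgebraicClosure K => f ⟨x, hx⟩) heq
    have h3 : s q x = s q' x := h2
    rw [AlgEquiv.mul_apply, h3]
    exact (s q').symm_apply_apply x
  obtain ⟨m, hm⟩ := AddSubgroup.mem_zmultiples_iff.1 (hz _ h1)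
  have h3 : act A B (s q) z = m • act A B (s q') z := by
    have : act A B (s q' * ((s q')⁻¹ * s q)) z = act A B (s q') (m • z) := by rw [act_mul, ← hm]
    rwa [mul_inv_cancel_left, map_zsmul] at this
  rw [hs q hq, hs q' hq'] at h3
  have h4 := hB.ind ((q.1 : ℤ) - m * q'.1) ((q.2 : ℤ) - m * q'.2) (by
    have : ((q.1 : ℤ) - m * q'.1) • P + ((q.2 : ℤ) - m * q'.2) • Q =
        ((q.1 : ℤ) • P + (q.2 : ℤ) • Q) - m • ((q'.1 : ℤ) • P + (q'.2 : ℤ) • Q) := by module
    rw [this, h3, sub_self])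
  have hn1' : ¬ (n : ℤ) ∣ 1 := by
    intro hd
    have := Int.le_of_dvd one_pos hd
    omega
  rcases hTm q hq with rfl | ⟨k, hk, rfl⟩
  · rcases hTm q' hq' with rfl | ⟨k', hk', rfl⟩
    · rfl
    · exfalso
      obtain ⟨h5, h6⟩ := h4
      push_cast at h5 h6
      apply hn1'
      have h7 := dvd_sub h6 (Dvd.dvd.mul_right h5 (k' : ℤ))
      have : (1 - m * (k' : ℤ)) - (0 - m * 1) * (k' : ℤ) = 1 := by ring
      rwa [this] at h7
  · rcases hTm q' hq' with rfl | ⟨k', hk', rfl⟩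
    · exfalso
      obtain ⟨h5, h6⟩ := h4
      push_cast at h5 h6
      apply hn1'
      have : (1 : ℤ) - m * 0 = 1 := by ring
      rwa [this] at h5
    · obtain ⟨h5, h6⟩ := h4
      push_cast at h5 h6
      have h7 : (n : ℤ) ∣ (k : ℤ) - k' := by
        have h8 := dvd_sub h6 (Dvd.dvd.mul_right h5 (k' : ℤ))
        have : ((k : ℤ) - m * (k' : ℤ)) - (1 - m * 1) * (k' : ℤ) = (k : ℤ) - k' := by ring
        rwa [this] at h8
      have h9 := Int.eq_zero_of_abs_lt_dvd h7 (by rw [abs_lt]; omega)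
      have : k = k' := by omega
      rw [this]

open scoped Classical in
/-- the torsion of prime order is spanned by two elements -/
theorem span2 {K : Type} [Field K] [NumberField K] {A B : K} (hD : 4 * A ^ 3 + 27 * B ^ 2 ≠ 0)
    {q : ℕ} (hq : q.Prime) : ∃ P Q : EP A B, q • P = 0 ∧ q • Q = 0 ∧
      ∀ R : EP A B, q • R = 0 → ∃ m n : ℤ, R = m • P + n • Q := by
  haveI : CharZero (AlgebraicClosure K) :=
    charZero_of_injective_algebraMap (algebraMap K (AlgebraicClosure K)).injective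
  obtain ⟨hfin, hcard⟩ := Mul.tor (AlgebraicClosure K) _ _ (Pool.Agent.Y673.FM.disc_ca hD) q hq.one_le
  set e := eqv A B (AlgebraicClosure K) with he
  set S : Set (EP A B) := {P | q • P = 0} with hS
  have himg : e '' S = {P | q • P = 0} := by
    ext P
    constructor
    · rintro ⟨R, hR, rfl⟩
      show q • e R = 0
      rw [← map_nsmul, (show q • R = 0 from hR), map_zero]
    · intro hP
      refine ⟨e.symm P, ?_, AddEquiv.apply_symm_apply _ _⟩
      show q • e.symm P = 0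
      rw [← map_nsmul, (show q • P = 0 from hP), map_zero]
  have hScard : q ^ 2 ≤ S.ncard := by
    rw [← Set.ncard_image_of_injective S e.injective, himg]
    exact hcard
  have hSfin : S.Finite := by
    apply Set.Finite.of_finite_image _ e.injective.injOn
    rw [himg]
    exact hfin
  have h2 := hq.two_le
  obtain ⟨P, hP, hP0⟩ : ∃ P ∈ S, P ≠ 0 := by
    by_contra hcon
    push Not at hcon
    have h1 : S ⊆ {0} := fun P hP => hcon P hP
    have h3 := Set.ncard_le_ncard h1 (Set.finite_singleton _)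
    rw [Set.ncard_singleton] at h3
    nlinarith
  obtain ⟨Q, hQ, hPQ⟩ : ∃ Q ∈ S, Q ∉ AddSubgroup.zmultiples P := by
    by_contra hcon
    push Not at hcon
    have h1 : S ⊆ (AddSubgroup.zmultiples P : Set (EP A B)) := fun Q hQ => hcon Q hQ
    have hPo : addOrderOf P ∣ q := addOrderOf_dvd_of_nsmul_eq_zero hP
    have hPo2 : addOrderOf P ≤ q := Nat.le_of_dvd hq.pos hPo
    have hfinP : (AddSubgroup.zmultiples P : Set (EP A B)).Finite := by
      rw [AddSubgroup.coe_zmultiples]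
      have hfo : IsOfFinAddOrder P := isOfFinAddOrder_iff_nsmul_eq_zero.2 ⟨q, hq.pos, hP⟩
      have := (finite_zmultiples (a := P)).2 hfo
      exact this
    have h3 := Set.ncard_le_ncard h1 hfinP
    have h4 : (AddSubgroup.zmultiples P : Set (EP A B)).ncard = addOrderOf P := by
      rw [← Nat.card_coe_set_eq]
      exact Nat.card_zmultiples P
    rw [h4] at h3
    nlinarith
  obtain ⟨h6, -⟩ := basis hD hq hP hQ hP0 hPQ
  exact ⟨P, Q, hP, hQ, h6⟩

section
variable {K : Type} [Field K] [NumberField K]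

open scoped Classical in
theorem hasSLn_one (A B : K) : HasSLn A B 1 := by
  refine ⟨0, 0, Gen.bas_one, fun a b c d _ => ⟨1, ?_, ?_⟩⟩ <;>
    rw [map_zero, zsmul_zero, zsmul_zero, add_zero]

open scoped Classical in
/-- **all powers of a prime `p ≥ 5`** -/
theorem serre (hS : S_SERRE) {A B : K} (hD : 4 * A ^ 3 + 27 * B ^ 2 ≠ 0) {p : ℕ} (hp : p.Prime)
    (h5 : 5 ≤ p) (h : HasSLn A B p) (m : ℕ) : HasSLn A B (p ^ m) := by
  rcases m with _ | k
  · rw [pow_zero]
    exact hasSLn_one A B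
  obtain ⟨P₁, Q₁, hB₁, hall⟩ := h
  obtain ⟨P, hP⟩ := div_ep hD hp k hB₁.hP
  obtain ⟨Q, hQ⟩ := div_ep hD hp k hB₁.hQ
  have hPk : ((p : ℤ) ^ (k + 1)) • P = 0 := by
    rw [pow_succ', mul_zsmul, hP, hB₁.hP]
  have hQk : ((p : ℤ) ^ (k + 1)) • Q = 0 := by
    rw [pow_succ', mul_zsmul, hQ, hB₁.hQ]
  have hB : Gen.Bas (p ^ (k + 1)) P Q := Gen.Bas.lift k hPk hQk (by rw [hP, hQ]; exact hB₁)
  have hpn : ((p ^ (k + 1) : ℕ) : ℤ) = (p : ℤ) ^ (k + 1) := by push_cast; rfl
  haveI : Fact p.Prime := ⟨hp⟩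
  -- the coordinates
  have hco : ∀ σ : AlgebraicClosure K ≃ₐ[K] AlgebraicClosure K, ∃ a b c d : ℤ,
      act A B σ P = a • P + c • Q ∧ act A B σ Q = b • P + d • Q := by
    intro σ
    obtain ⟨a, c, h1⟩ := hB.span (act A B σ P) (by rw [← map_zsmul, hB.hP, map_zero])
    obtain ⟨b, d, h2⟩ := hB.span (act A B σ Q) (by rw [← map_zsmul, hB.hQ, map_zero])
    exact ⟨a, b, c, d, h1, h2⟩
  -- the monoid
  let I : Submonoid (Matrix (Fin 2) (Fin 2) (ZMod (p ^ (k + 1)))) :=
    { carrier := {M | ∃ (σ : AlgebraicClosure K ≃ₐ[K] AlgebraicClosure K) (a b c d : ℤ),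
        M = !![(a : ZMod (p ^ (k + 1))), b; c, d] ∧
          act A B σ P = a • P + c • Q ∧ act A B σ Q = b • P + d • Q}
      mul_mem' := by
        rintro M M' ⟨σ, a, b, c, d, rfl, h1, h2⟩ ⟨σ', a', b', c', d', rfl, h1', h2'⟩
        refine ⟨σ * σ', a * a' + b * c', a * b' + b * d', c * a' + d * c', c * b' + d * d', ?_, ?_, ?_⟩
        · rw [Matrix.mul_fin_two]
          push_cast
          rfl
        · rw [act_mul, h1', map_add, map_zsmul, map_zsmul, h1, h2]
          module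
        · rw [act_mul, h2', map_add, map_zsmul, map_zsmul, h1, h2]
          module
      one_mem' := by
        refine ⟨1, 1, 0, 0, 1, ?_, ?_, ?_⟩
        · rw [Matrix.one_fin_two]
          push_cast
          rfl
        · rw [act_one]; module
        · rw [act_one]; module }
  have hI : ∀ M, M ∈ I ↔ ∃ (σ : AlgebraicClosure K ≃ₐ[K] AlgebraicClosure K) (a b c d : ℤ),
        M = !![(a : ZMod (p ^ (k + 1))), b; c, d] ∧
          act A B σ P = a • P + c • Q ∧ act A B σ Q = b • P + d • Q := fun M => Iff.rfl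
  have hdet : ∀ M ∈ I, IsUnit M.det := by
    rintro M ⟨σ, a, b, c, d, rfl, h1, h2⟩
    obtain ⟨a', b', c', d', h1', h2'⟩ := hco σ⁻¹
    have e1 : act A B (σ * σ⁻¹) P = (a * a' + b * c') • P + (c * a' + d * c') • Q := by
      rw [act_mul, h1', map_add, map_zsmul, map_zsmul, h1, h2]
      module
    have e2 : act A B (σ * σ⁻¹) Q = (a * b' + b * d') • P + (c * b' + d * d') • Q := by
      rw [act_mul, h2', map_add, map_zsmul, map_zsmul, h1, h2]
      module
    rw [mul_inv_cancel, act_one] at e1 e2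
    have f1 := hB.ind (a * a' + b * c' - 1) (c * a' + d * c') (by
      have : (a * a' + b * c' - 1) • P + (c * a' + d * c') • Q =
          ((a * a' + b * c') • P + (c * a' + d * c') • Q) - P := by module
      rw [this, ← e1, sub_self])
    have f2 := hB.ind (a * b' + b * d') (c * b' + d * d' - 1) (by
      have : (a * b' + b * d') • P + (c * b' + d * d' - 1) • Q =
          ((a * b' + b * d') • P + (c * b' + d * d') • Q) - Q := by module
      rw [this, ← e2, sub_self])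
    have g : ∀ x : ℤ, ((p ^ (k + 1) : ℕ) : ℤ) ∣ x → (x : ZMod (p ^ (k + 1))) = 0 := fun x hx =>
      (ZMod.intCast_zmod_eq_zero_iff_dvd _ _).2 hx
    have g1 := g _ f1.1
    have g2 := g _ f1.2
    have g3 := g _ f2.1
    have g4 := g _ f2.2
    push_cast at g1 g2 g3 g4
    have hprod : !![(a : ZMod (p ^ (k + 1))), b; c, d] * !![(a' : ZMod (p ^ (k + 1))), b'; c', d'] = 1 := by
      rw [Matrix.mul_fin_two, Matrix.one_fin_two]
      congr 1
      have q1 : (a : ZMod (p ^ (k + 1))) * a' + b * c' = 1 := by linear_combination g1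
      have q4 : (c : ZMod (p ^ (k + 1))) * b' + d * d' = 1 := by linear_combination g4
      rw [q1, q4, g2, g3]
    have := congrArg Matrix.det hprod
    rw [Matrix.det_mul, Matrix.det_one] at this
    exact IsUnit.of_mul_eq_one _ this
  have hred : ∀ s : Matrix (Fin 2) (Fin 2) (ZMod p), s.det = 1 → ∃ M ∈ I,
      M.map (ZMod.castHom (dvd_pow_self p (Nat.succ_ne_zero k)) (ZMod p)) = s := by
    intro s hs
    obtain ⟨a, ha⟩ := ZMod.intCast_surjective (s 0 0)
    obtain ⟨b, hb⟩ := ZMod.intCast_surjective (s 0 1)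
    obtain ⟨c, hc⟩ := ZMod.intCast_surjective (s 1 0)
    obtain ⟨d, hd⟩ := ZMod.intCast_surjective (s 1 1)
    have hdvd : (p : ℤ) ∣ a * d - b * c - 1 := by
      rw [← ZMod.intCast_zmod_eq_zero_iff_dvd]
      push_cast
      rw [ha, hb, hc, hd]
      rw [Matrix.det_fin_two] at hs
      rw [hs, sub_self]
    obtain ⟨σ, h1, h2⟩ := hall a b c d hdvd
    obtain ⟨a', b', c', d', h1', h2'⟩ := hco σ
    have e1 : act A B σ P₁ = a' • P₁ + c' • Q₁ := by
      rw [← hP, map_zsmul, h1', zsmul_add, hP, ← mul_zsmul, ← mul_zsmul, mul_comm, mul_zsmul, hP,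
        mul_comm, mul_zsmul, hQ]
    have e2 : act A B σ Q₁ = b' • P₁ + d' • Q₁ := by
      rw [← hQ, map_zsmul, h2', zsmul_add, hQ, ← mul_zsmul, ← mul_zsmul, mul_comm, mul_zsmul, hP,
        mul_comm, mul_zsmul, hQ]
    rw [h1] at e1
    rw [h2] at e2
    have f1 := hB₁.ind (a - a') (c - c') (by
      have : (a - a') • P₁ + (c - c') • Q₁ = (a • P₁ + c • Q₁) - (a' • P₁ + c' • Q₁) := by module
      rw [this, e1, sub_self])
    have f2 := hB₁.ind (b - b') (d - d') (by
      have : (b - b') • P₁ + (d - d') • Q₁ = (b • P₁ + d • Q₁) - (b' • P₁ + d' • Q₁) := by module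
      rw [this, e2, sub_self])
    refine ⟨!![(a' : ZMod (p ^ (k + 1))), b'; c', d'], ⟨σ, a', b', c', d', rfl, h1', h2'⟩, ?_⟩
    have g : ∀ x y : ℤ, (p : ℤ) ∣ x - y → ((y : ℤ) : ZMod p) = x := by
      intro x y hxy
      have := (ZMod.intCast_zmod_eq_zero_iff_dvd _ _).2 hxy
      push_cast at this
      exact (sub_eq_zero.1 this).symm
    ext i j
    fin_cases i <;> fin_cases j
    · simp [g _ _ f1.1, ha]
    · simp [g _ _ f2.1, hb]
    · simp [g _ _ f1.2, hc]
    · simp [g _ _ f2.2, hd]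
  refine ⟨P, Q, hB, fun a b c d hdet1 => ?_⟩
  obtain ⟨σ, a', b', c', d', h0, h1, h2⟩ := (hI _).1 (hS p k hp h5 I hdet hred
    !![(a : ZMod (p ^ (k + 1))), b; c, d] (by
      rw [Matrix.det_fin_two_of]
      have := (ZMod.intCast_zmod_eq_zero_iff_dvd _ _).2 hdet1
      push_cast at this
      linear_combination this))
  have k1 := congrFun (congrFun h0 0) 0
  have k2 := congrFun (congrFun h0 0) 1
  have k3 := congrFun (congrFun h0 1) 0
  have k4 := congrFun (congrFun h0 1) 1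
  simp only [Matrix.of_apply, Matrix.cons_val', Matrix.cons_val_zero, Matrix.cons_val_one,
    Matrix.cons_val_fin_one] at k1 k2 k3 k4
  have g : ∀ x y : ℤ, (x : ZMod (p ^ (k + 1))) = y → ((p ^ (k + 1) : ℕ) : ℤ) ∣ y - x := by
    intro x y hxy
    rw [← ZMod.intCast_zmod_eq_zero_iff_dvd]
    push_cast
    rw [hxy, sub_self]
  refine ⟨σ, ?_, ?_⟩
  · rw [h1, Gen.smul_congr hB.hP (g _ _ k1), Gen.smul_congr hB.hQ (g _ _ k3)]
  · rw [h2, Gen.smul_congr hB.hP (g _ _ k2), Gen.smul_congr hB.hQ (g _ _ k4)]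

end

section
variable {k : Type} [Field k] [NumberField k]

/-- the image contains all automorphisms of determinant one for all levels prime to a prime `p` and for
all powers of `p` -/
def LQ (A B : k) : Prop :=
  ∃ p : ℕ, p.Prime ∧ (∀ N : ℕ, 1 ≤ N → ¬ p ∣ N → HasSLn A B N) ∧ ∀ m : ℕ, HasSLn A B (p ^ m)

theorem LQ.prime {A B : k} (h : LQ A B) {l : ℕ} (hl : l.Prime) : HasSLn A B l := by
  obtain ⟨p, hp, h1, h2⟩ := h
  by_cases hpl : p ∣ l
  · have := (Nat.prime_dvd_prime_iff_eq hp hl).1 hpl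
    rw [← this]
    simpa using h2 1
  · exact h1 l hl.one_le hpl

open scoped Classical in
theorem stab_smul' {A B : k} {y : EP A B} {σ : AlgebraicClosure k ≃ₐ[k] AlgebraicClosure k}
    (h : act A B σ y ∈ AddSubgroup.zmultiples y) (m : ℕ) :
    act A B σ (m • y) ∈ AddSubgroup.zmultiples (m • y) := by
  obtain ⟨r, hr⟩ := AddSubgroup.mem_zmultiples_iff.1 h
  refine AddSubgroup.mem_zmultiples_iff.2 ⟨r, ?_⟩
  rw [map_nsmul, ← hr, ← natCast_zsmul, ← natCast_zsmul, ← mul_zsmul, ← mul_zsmul, mul_comm]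

open scoped Classical in
theorem cy_prime' {A B : k} (h : LQ A B) (M : IntermediateField k (AlgebraicClosure k))
    [FiniteDimensional k M] {y : EP A B}
    (hy : ∀ σ ∈ M.fixingSubgroup, act A B σ y ∈ AddSubgroup.zmultiples y)
    (hf : IsOfFinAddOrder y) {l : ℕ} (hl : l.Prime) (hd : l ∣ addOrderOf y) :
    l + 1 ≤ Module.finrank k M := by
  obtain ⟨m, hm⟩ := hd
  have hpos : 0 < addOrderOf y := hf.addOrderOf_pos
  have hm1 : m ≠ 0 := by
    rintro rfl
    omega
  refine orb_line hl.one_lt (h.prime hl) M (z := m • y)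
    (fun σ hσ => stab_smul' (hy σ hσ) m) ?_
  rw [addOrderOf_nsmul' y hm1, hm, Nat.gcd_mul_left_left,
    Nat.mul_div_cancel _ (Nat.pos_of_ne_zero hm1)]

open scoped Classical in
theorem cy_lev' {A B : k} (M : IntermediateField k (AlgebraicClosure k))
    [FiniteDimensional k M] {y : EP A B}
    (hy : ∀ σ ∈ M.fixingSubgroup, act A B σ y ∈ AddSubgroup.zmultiples y)
    {n : ℕ} (hn : 1 ≤ n) (hord : addOrderOf y = n) (h : HasSLn A B n) :
    n ≤ Module.finrank k M := by
  have hMpos : 0 < Module.finrank k M := Module.finrank_pos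
  rcases eq_or_lt_of_le hn with h1 | h1
  · omega
  · have := orb_line h1 h M hy hord
    omega

open scoped Classical in
/-- the order of a stable cyclic subgroup -/
theorem cy_all' {A B : k} (h : LQ A B) (M : IntermediateField k (AlgebraicClosure k))
    [FiniteDimensional k M] {y : EP A B}
    (hy : ∀ σ ∈ M.fixingSubgroup, act A B σ y ∈ AddSubgroup.zmultiples y)
    (hf : IsOfFinAddOrder y) : addOrderOf y ≤ Module.finrank k M ^ 2 := by
  obtain ⟨p, hp, h1, h2⟩ := h
  have hpos : 0 < addOrderOf y := hf.addOrderOf_pos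
  obtain ⟨r, m, hm, hk⟩ := Nat.exists_eq_pow_mul_and_not_dvd hpos.ne' p hp.ne_one
  have hm0 : m ≠ 0 := by
    rintro rfl
    exact hm (dvd_zero _)
  have hpk : 0 < p ^ r := pow_pos hp.pos r
  have e1 : m ≤ Module.finrank k M := by
    refine cy_lev' M (y := (p ^ r) • y) (fun σ hσ => stab_smul' (hy σ hσ) _)
      (Nat.pos_of_ne_zero hm0) ?_ (h1 m (Nat.pos_of_ne_zero hm0) hm)
    rw [addOrderOf_nsmul' y hpk.ne', hk, Nat.gcd_mul_right_left, Nat.mul_div_cancel_left _ hpk]
  have e2 : p ^ r ≤ Module.finrank k M := by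
    refine cy_lev' M (y := m • y) (fun σ hσ => stab_smul' (hy σ hσ) _) hpk ?_ (h2 r)
    rw [addOrderOf_nsmul' y hm0, hk, Nat.gcd_mul_left_left,
      Nat.mul_div_cancel _ (Nat.pos_of_ne_zero hm0)]
  rw [hk, pow_two]
  exact Nat.mul_le_mul e2 e1

open scoped Classical in
/-- the order of a stable cyclic subgroup, small degrees -/
theorem cy_small' {A B : k} (h : LQ A B) (M : IntermediateField k (AlgebraicClosure k))
    [FiniteDimensional k M] {y : EP A B}
    (hy : ∀ σ ∈ M.fixingSubgroup, act A B σ y ∈ AddSubgroup.zmultiples y)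
    (hf : IsOfFinAddOrder y)
    (hs : ∀ N : ℕ, 1 ≤ N → N ≤ Module.finrank k M ^ 2 → HasSLn A B N) :
    addOrderOf y ≤ Module.finrank k M :=
  cy_lev' M hy hf.addOrderOf_pos rfl (hs _ hf.addOrderOf_pos (cy_all' h M hy hf))

/-- invariants all of whose curves have the property -/
def LJk (j : k) : Prop :=
  j ≠ 0 ∧ j ≠ 1728 ∧ ∀ A B : k, 4 * A ^ 3 + 27 * B ^ 2 ≠ 0 → jv A B = j → LQ A B

end

section
variable {k : Type} [Field k] [NumberField k]

/-- the residue characteristic of a place -/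
theorem res_char (v : Pr k) : ∃ p : ℕ, p.Prime ∧ (1 ≤ (adv k v).v (p : k)) ∧
    ∀ N : ℕ, 1 ≤ N → ¬ p ∣ N → (adv k v).v (N : k) = 0 := by
  classical
  have hex : ∃ n : ℕ, n ≠ 0 ∧ (n : 𝓞 k) ∈ v.asIdeal := by
    refine ⟨Ideal.absNorm v.asIdeal, ?_, Ideal.absNorm_mem _⟩
    intro h0
    exact v.ne_bot (Ideal.absNorm_eq_zero_iff.1 h0)
  obtain ⟨hp0, hpv⟩ := Nat.find_spec hex
  have hmin : ∀ m, m < Nat.find hex → m ≠ 0 → (m : 𝓞 k) ∉ v.asIdeal := by
    intro m hm hm0 hmv
    exact Nat.find_min hex hm ⟨hm0, hmv⟩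
  obtain ⟨p, hpd⟩ : ∃ p, p = Nat.find hex := ⟨_, rfl⟩
  rw [← hpd] at hp0 hpv hmin
  have hp1 : p ≠ 1 := by
    rintro rfl
    rw [Nat.cast_one] at hpv
    exact v.isPrime.ne_top ((Ideal.eq_top_iff_one _).2 hpv)
  have hp : p.Prime := by
    by_contra hnp
    obtain ⟨a, ha⟩ := Nat.minFac_dvd p
    have hq := Nat.minFac_prime hp1
    have ha0 : a ≠ 0 := by
      rintro rfl
      omega
    have hlt : p.minFac < p := by
      refine lt_of_le_of_ne (Nat.minFac_le (Nat.pos_of_ne_zero hp0)) fun h => hnp ?_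
      rw [← h]
      exact hq
    have hap : a < p := by
      have h2 := hq.two_le
      calc a < 2 * a := by omega
        _ ≤ p.minFac * a := Nat.mul_le_mul_right _ h2
        _ = p := ha.symm
    have hmem : ((p.minFac : 𝓞 k)) * (a : 𝓞 k) ∈ v.asIdeal := by
      have : ((p.minFac : 𝓞 k)) * (a : 𝓞 k) = ((p : ℕ) : 𝓞 k) := by
        conv_rhs => rw [ha]
        push_cast
        rfl
      rw [this]
      exact hpv
    rcases v.isPrime.mem_or_mem hmem with h | h
    · exact hmin _ hlt hq.ne_zero h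
    · exact hmin _ hap ha0 h
  refine ⟨p, hp, ?_, ?_⟩
  · have h1 : ((p : ℕ) : k) = algebraMap (𝓞 k) k (p : 𝓞 k) := by rw [map_natCast]
    have h2 := (le_adv_iff k v (p : 𝓞 k) (by exact_mod_cast hp0) 1).2 (by rw [pow_one]; exact hpv)
    rw [h1]
    exact_mod_cast h2
  · intro N hN hpN
    have hN0 : (N : 𝓞 k) ≠ 0 := by exact_mod_cast (by omega : N ≠ 0)
    have h1 : ((N : ℕ) : k) = algebraMap (𝓞 k) k (N : 𝓞 k) := by rw [map_natCast]
    have h2 : (N : 𝓞 k) ∉ v.asIdeal := by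
      intro hNv
      have hcop : IsCoprime (p : ℤ) (N : ℤ) :=
        Nat.isCoprime_iff_coprime.2 ((Nat.Prime.coprime_iff_not_dvd hp).2 hpN)
      obtain ⟨a, b, hab⟩ := hcop
      apply v.isPrime.ne_top
      rw [Ideal.eq_top_iff_one]
      have : (1 : 𝓞 k) = (a : 𝓞 k) * (p : 𝓞 k) + (b : 𝓞 k) * (N : 𝓞 k) := by
        have := congrArg (Int.cast : ℤ → 𝓞 k) hab
        push_cast at this
        exact this.symm
      rw [this]
      exact Ideal.add_mem _ (Ideal.mul_mem_left _ _ hpv) (Ideal.mul_mem_left _ _ hNv)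
    have h3 := (le_adv_iff k v (N : 𝓞 k) hN0 1).not.2 (by rw [pow_one]; exact h2)
    have h4 : (0 : ℤ) ≤ (adv k v).v (algebraMap (𝓞 k) k (N : 𝓞 k)) := adv_nonneg k v _ hN0
    rw [h1]
    rw [not_le] at h3
    have h5 : (adv k v).v (algebraMap (𝓞 k) k (N : 𝓞 k)) < 1 := by exact_mod_cast h3
    omega

/-- **the invariants of `Q19.SU` have the property** -/
theorem ljk_of (hS : S_SERRE) {t : ℝ} {j : k} (h0 : j ≠ 0) (h1 : j ≠ 1728) (h : AllSLn t j)
    (hsp : 0 < Pool.Agent.Y733.LS.sp j) : LJk j := by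
  obtain ⟨v, hv⟩ := exists_sp hsp
  obtain ⟨k1, k2, k3⟩ := adv_sp h0 hv
  obtain ⟨p, hp, hp1, hpN⟩ := res_char v
  have h5 : 5 ≤ p := by
    by_contra hlt
    have h2 := hp.two_le
    interval_cases p
    · have : (adv k v).v ((2 : ℕ) : k) = 0 := by exact_mod_cast k1
      omega
    · have : (adv k v).v ((3 : ℕ) : k) = 0 := by exact_mod_cast k2
      omega
    · exact absurd hp (by norm_num)
  refine ⟨h0, h1, fun A B hD hj => ⟨p, hp, ?_, ?_⟩⟩
  · intro N hN hpd
    exact h A B hD hj N hN (Or.inr (Or.inr ⟨v, hv, hpN N hN hpd⟩))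
  · exact serre hS hD hp h5 (h A B hD hj p hp.one_le (Or.inl hp))

end

end Pool.Agent.W2helper23.TB
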